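import Pool.Agent.MP_45960e_lc.Grp

/-!
Families of endomorphisms that expand, found by counting, and the solvability lemma they give.
-/

namespace Pool.Agent.MP_45960e_lc

open Module Finset

theorem union_bound {Ω Y P : Type} [AddCommGroup Ω] [AddCommGroup Y] [Finite Ω] [Finite Y]
    [Finite P] (L : P → Ω →+ Y) (y : P → Y) (good : P → Prop)
    (hs : ∀ p, good p → Function.Surjective (L p)) (hc : Nat.card P < Nat.card Y) :
    ∃ ω, ∀ p, good p → L p ω ≠ y p := by
  classical
  have := Fintype.ofFinite Ω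
  have := Fintype.ofFinite Y
  have := Fintype.ofFinite P
  by_contra hne
  push Not at hne
  have h1 : ∀ p, good p → Fintype.card Y * #{ω | L p ω = y p} = Fintype.card Ω := by
    intro p hp
    rw [← Finset.card_univ (α := Ω), Finset.card_eq_sum_card_fiberwise (f := L p) (s := univ)
      (t := univ) (by simp)]
    rw [Finset.sum_congr rfl (fun b _ => AddMonoidHom.card_fiber_eq_of_mem_range (L p)
      (hs p hp b) (hs p hp (y p)))]
    simp
  have h2 : Fintype.card Ω ≤ ∑ p ∈ univ.filter good, #{ω | L p ω = y p} := by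
    refine le_trans ?_ (Finset.card_biUnion_le)
    refine Finset.card_le_card ?_
    intro ω _
    obtain ⟨p, hp, h⟩ := hne ω
    simp only [mem_biUnion, mem_filter, mem_univ, true_and]
    exact ⟨p, hp, h⟩
  have h3 : Fintype.card Y * Fintype.card Ω ≤ Fintype.card P * Fintype.card Ω := by
    calc Fintype.card Y * Fintype.card Ω
        ≤ Fintype.card Y * ∑ p ∈ univ.filter good, #{ω | L p ω = y p} :=
          Nat.mul_le_mul_left _ h2
      _ = ∑ p ∈ univ.filter good, Fintype.card Ω := by
          rw [Finset.mul_sum]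
          exact Finset.sum_congr rfl fun p hp => h1 p (by simpa using hp)
      _ ≤ Fintype.card P * Fintype.card Ω := by
          rw [Finset.sum_const, smul_eq_mul]
          exact Nat.mul_le_mul_right _ (Finset.card_le_univ _)
  have h4 := Nat.le_of_mul_le_mul_right h3 Fintype.card_pos
  simp only [Nat.card_eq_fintype_card] at hc
  omega

theorem exists_solve {ι κ M : Type} [Fintype ι] [Fintype κ] [AddCommGroup M] [Module F M]
    (c : ι → κ → F) (hc : LinearIndependent F c) (y : ι → M) :
    ∃ x : κ → M, ∀ e, ∑ σ, c e σ • x σ = y e := by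
  classical
  obtain ⟨g, hg⟩ := (Fintype.linearCombination F c).exists_leftInverse_of_injective
    (LinearMap.ker_eq_bot.2 hc.fintypeLinearCombination_injective)
  refine ⟨fun σ => Fintype.linearCombination F y (g (Pi.single σ 1)), fun e => ?_⟩
  have h1 : g (c e) = Pi.single e 1 := by
    have := LinearMap.congr_fun hg (Pi.single e 1)
    simpa using this
  have h2 : c e = ∑ σ, c e σ • Pi.single σ (1 : F) := by
    ext t; simp [Finset.sum_apply, Pi.single_apply]
  simp only [← map_smul, ← map_sum]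
  rw [← h2, h1]; simp

variable {E E' : Type} [AddCommGroup E] [Module F E] [AddCommGroup E'] [Module F E']
  {q u : ℕ}

/-- The span of the images of `n σ (ts p)` and of `ts' p`. -/
def spanU (π : E →ₗ[F] E') (n : Fin q → E →ₗ[F] E) (ts ts' : Fin u → E) : Submodule F E' :=
  Submodule.span F (Set.range
    (Sum.elim (fun x : Fin q × Fin u => π (n x.1 (ts x.2))) (fun p : Fin u => π (ts' p))))

/-- The expansion property. -/
def Expands (π : E →ₗ[F] E') (n : Fin q → E →ₗ[F] E) (u D : ℕ) : Prop :=
  ∀ ts ts' : Fin u → E, ∀ v ∉ Submodule.span F (Set.range ts),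
    finrank F (LinearMap.ker ((spanU π n ts ts').mkQ ∘ₗ π ∘ₗ
      Fintype.linearCombination F fun σ => n σ v)) ≤ D

theorem exists_expands [Finite E] [Finite E'] (π : E →ₗ[F] E') (hπ : Function.Surjective π)
    (q u D : ℕ) (hc : Nat.card E ^ (2 * u + 1) * 3 ^ ((D + 1) * (q + q * u + u)) <
      Nat.card E' ^ (D + 1)) : ∃ n : Fin q → E →ₗ[F] E, Expands π n u D := by
  classical
  have : Finite (E →ₗ[F] E) := Module.finite_of_finite F
  let P := (Fin u → E) × (Fin u → E) × E × (Fin (D + 1) → Fin q → F) ×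
    (Fin (D + 1) → (Fin q × Fin u) ⊕ Fin u → F)
  let L : P → (Fin q → E →ₗ[F] E) →+ (Fin (D + 1) → E') := fun p => AddMonoidHom.mk'
    (fun n e => π (∑ σ, p.2.2.2.1 e σ • n σ p.2.2.1) -
      ∑ x : Fin q × Fin u, p.2.2.2.2 e (Sum.inl x) • π (n x.1 (p.1 x.2))) (by
      intro a b
      funext e
      simp only [Pi.add_apply, LinearMap.add_apply, smul_add, Finset.sum_add_distrib, map_add]
      abel)
  obtain ⟨n, hn⟩ := union_bound L (fun p e => ∑ x, p.2.2.2.2 e (Sum.inr x) • π (p.2.1 x))
    (fun p => p.2.2.1 ∉ Submodule.span F (Set.range p.1) ∧ LinearIndependent F p.2.2.2.1)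
    (by
      rintro ⟨ts, ts', v, c, l⟩ ⟨hv, hc⟩ y
      obtain ⟨φ, h1, h2⟩ := LinearMap.exists_extend_of_notMem
        (0 : Submodule.span F (Set.range ts) →ₗ[F] F) hv 1
      have h3 : ∀ p, φ (ts p) = 0 := fun p =>
        LinearMap.congr_fun h1 ⟨ts p, Submodule.subset_span ⟨p, rfl⟩⟩
      choose y' hy' using fun e => hπ (y e)
      obtain ⟨x, hx⟩ := exists_solve c hc y'
      refine ⟨fun σ => φ.smulRight (x σ), ?_⟩
      funext e
      simp only [L, AddMonoidHom.mk'_apply, LinearMap.smulRight_apply, h2, h3, one_smul,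
        zero_smul, map_zero, smul_zero, Finset.sum_const_zero, sub_zero]
      rw [hx, hy'])
    (by
      refine lt_of_eq_of_lt ?_ (lt_of_lt_of_eq hc ?_)
      · simp only [P, Nat.card_prod, Nat.card_fun, Nat.card_sum, Nat.card_fin, Nat.card_zmod]
        ring
      · simp [Nat.card_fun])
  refine ⟨n, fun ts ts' v hv => ?_⟩
  by_contra hlt
  obtain ⟨f, hf⟩ := exists_linearIndependent_of_le_finrank (Nat.succ_le_of_lt (not_le.1 hlt))
  have hf' := hf.map' _ (Submodule.ker_subtype _)
  have hm : ∀ e, π (∑ σ, (f e).1 σ • n σ v) ∈ spanU π n ts ts' := by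
    intro e
    have := LinearMap.mem_ker.1 (f e).2
    rw [LinearMap.comp_apply, LinearMap.comp_apply, Fintype.linearCombination_apply] at this
    exact (Submodule.Quotient.mk_eq_zero _).1 this
  choose l hl using fun e => (Submodule.mem_span_range_iff_exists_fun F).1 (hm e)
  refine hn (ts, ts', v, fun e => (f e).1, l) ⟨hv, hf'⟩ ?_
  funext e
  simp only [L, AddMonoidHom.mk'_apply]
  rw [← hl e, Fintype.sum_sum_type]
  simp

theorem orth {X Y : Type} [AddCommGroup X] [Module F X] [AddCommGroup Y] [Module F Y] {D : ℕ}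
    (x : Fin q → X) (y : Fin q → Y)
    (hx : finrank F (LinearMap.ker (Fintype.linearCombination F x)) ≤ D)
    (hy : finrank F (LinearMap.ker (Fintype.linearCombination F y)) ≤ D)
    (h : ∀ η : X →ₗ[F] Y →ₗ[F] F, ∑ σ, η (x σ) (y σ) = 0) : q ≤ 2 * D := by
  classical
  let yT := (LinearEquiv.piRing F F (Fin q) F).toLinearMap ∘ₗ
    (Fintype.linearCombination F y).dualMap
  have h1 : LinearMap.range yT ≤ LinearMap.ker (Fintype.linearCombination F x) := by
    rintro _ ⟨γ, rfl⟩
    rw [LinearMap.mem_ker, ← Module.forall_dual_apply_eq_zero_iff F]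
    intro α
    have := h (α.smulRight γ)
    simpa [yT, Fintype.linearCombination_apply, mul_comm] using this
  have h2 : finrank F (LinearMap.range yT) =
      finrank F (LinearMap.range (Fintype.linearCombination F y)) := by
    rw [LinearMap.range_comp, LinearEquiv.finrank_map_eq,
      LinearMap.finrank_range_dualMap_eq_finrank_range]
  have h3 := LinearMap.finrank_range_add_finrank_ker (Fintype.linearCombination F y)
  have h4 := Submodule.finrank_mono h1
  simp at h3
  omega

theorem lc_comp {X : Type} [AddCommGroup X] [Module F X] (f : E →ₗ[F] X) (x : Fin q → E) :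
    Fintype.linearCombination F (fun σ => f (x σ)) = f ∘ₗ Fintype.linearCombination F x := by
  ext; simp

theorem Expands.key [Module.Finite F E] {π : E →ₗ[F] E'} {n : Fin q → E →ₗ[F] E} {D : ℕ}
    (h : Expands π n u D) (hq : 2 * D < q) (ts ts' ss : Fin u → E) (v : E)
    (hv : v ∉ Submodule.span F (Set.range ts)) (ρ : Dual F E) :
    ∃ η : E →ₗ[F] E →ₗ[F] F, (∀ σ p, η (n σ (ts p)) = 0) ∧ (∀ p, η (ts' p) = 0) ∧
      (∀ x, π x = 0 → η x = 0) ∧ (∀ x p, η x (ss p) = 0) ∧
      ∀ w, ∑ σ, η (n σ v) (n σ w) = ρ w := by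
  let qU := (spanU π n ts ts').mkQ ∘ₗ π
  let qS := (spanU π n 0 ss).mkQ ∘ₗ π
  let Ψ : ((E' ⧸ spanU π n ts ts') →ₗ[F] (E' ⧸ spanU π n 0 ss) →ₗ[F] F) →ₗ[F] E →ₗ[F] F :=
    LinearMap.mk₂ F (fun η w => ∑ σ, η (qU (n σ v)) (qS (n σ w)))
      (by intros; simp [Finset.sum_add_distrib]) (by intros; simp [Finset.mul_sum])
      (by intros; simp [Finset.sum_add_distrib]) (by intros; simp [Finset.mul_sum])
  have hΨ : Function.Surjective Ψ := by
    refine (LinearMap.flip_injective_iff₂ (K := F)
      (V₁ := (E' ⧸ spanU π n ts ts') →ₗ[F] (E' ⧸ spanU π n 0 ss) →ₗ[F] F) (V₂ := E)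
      (B := Ψ)).1 ?_
    rw [← LinearMap.ker_eq_bot, LinearMap.ker_eq_bot']
    intro w hw
    by_contra hw0
    have := orth (D := D) (fun σ => qU (n σ v)) (fun σ => qS (n σ w))
      (by rw [lc_comp]; exact h ts ts' v hv)
      (by
        rw [lc_comp]
        refine h 0 ss w ?_
        intro hmem
        apply hw0
        have : Submodule.span F (Set.range (0 : Fin u → E)) = ⊥ := by
          rw [Submodule.span_eq_bot]; rintro _ ⟨i, rfl⟩; rfl
        simpa [this] using hmem)
      (fun η => LinearMap.congr_fun hw η)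
    omega
  obtain ⟨η, hη⟩ := hΨ ρ
  refine ⟨η.compl₁₂ qU qS, ?_, ?_, ?_, ?_, fun w => LinearMap.congr_fun hη w⟩
  · intro σ p
    have : qU (n σ (ts p)) = 0 := (Submodule.Quotient.mk_eq_zero _).2
      (Submodule.subset_span ⟨Sum.inl (σ, p), rfl⟩)
    ext w; simp [this]
  · intro p
    have : qU (ts' p) = 0 := (Submodule.Quotient.mk_eq_zero _).2
      (Submodule.subset_span ⟨Sum.inr p, rfl⟩)
    ext w; simp [this]
  · intro x hx
    ext w; simp [qU, hx]
  · intro x p
    have : qS (ss p) = 0 := (Submodule.Quotient.mk_eq_zero _).2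
      (Submodule.subset_span ⟨Sum.inr p, rfl⟩)
    simp [this]

end Pool.Agent.MP_45960e_lc
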