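import Pool.Agent.MP_45960e_lc.Lower
import Pool.Agent.MP_45960e_lc.Expand

/-!
The chain on a square grid of blocks.
-/

namespace Pool.Agent.MP_45960e_lc

open Module Function

set_option synthInstance.maxHeartbeats 40000
set_option maxHeartbeats 800000
set_option linter.unusedSectionVars false

section
variable {E : Type} [AddCommGroup E] [Module F E] {R : ℕ} [NeZero R]

def shiftL (f : E →ₗ[F] E) : (Fin R → E) →ₗ[F] (Fin R → E) :=
  LinearMap.pi fun i => if h : i.val + 1 < R then f ∘ₗ LinearMap.proj (⟨i.val + 1, h⟩ : Fin R)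
    else 0

def wrapL (f : E →ₗ[F] E) : (Fin R → E) →ₗ[F] (Fin R → E) :=
  LinearMap.pi fun i => if i.val + 1 = R then f ∘ₗ LinearMap.proj (0 : Fin R) else 0

def diagL (f : E →ₗ[F] E) : (Fin R → E) →ₗ[F] (Fin R → E) :=
  LinearMap.pi fun i => f ∘ₗ LinearMap.proj i

theorem shiftL_apply (f : E →ₗ[F] E) (a : Fin R → E) (i : Fin R) :
    shiftL f a i = if h : i.val + 1 < R then f (a ⟨i.val + 1, h⟩) else 0 := by
  simp only [shiftL, LinearMap.pi_apply]
  split_ifs <;> simp

theorem wrapL_apply (f : E →ₗ[F] E) (a : Fin R → E) (i : Fin R) :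
    wrapL f a i = if i.val + 1 = R then f (a 0) else 0 := by
  simp only [wrapL, LinearMap.pi_apply]
  split_ifs <;> simp

theorem diagL_single (f : E →ₗ[F] E) (j : Fin R) (w : E) :
    diagL f (Pi.single j w) = Pi.single j (f w) := by
  funext i
  by_cases h : i = j
  · subst h; simp [diagL]
  · simp [diagL, h]

theorem shiftL_zero (f : E →ₗ[F] E) (i : Fin R) (hi : i.val = 0) (v : E) :
    shiftL f (Pi.single i v) = 0 := by
  funext j
  rw [shiftL_apply]
  split_ifs with h
  · rw [Pi.single_eq_of_ne (by intro e; rw [← e] at hi; simp at hi)]; simp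
  · rfl

theorem shiftL_succ (f : E →ₗ[F] E) (i i' : Fin R) (hi : i.val = i'.val + 1) (v : E) :
    shiftL f (Pi.single i v) = Pi.single i' (f v) := by
  funext j
  rw [shiftL_apply]
  by_cases hj : j = i'
  · subst hj
    have h : j.val + 1 < R := hi ▸ i.2
    have : (⟨j.val + 1, h⟩ : Fin R) = i := Fin.ext hi.symm
    rw [dif_pos h, this]; simp
  · rw [Pi.single_eq_of_ne hj]
    split_ifs with h
    · rw [Pi.single_eq_of_ne]
      · simp
      · intro e
        apply hj
        apply Fin.ext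
        rw [← e] at hi
        simpa using hi
    · rfl

theorem wrapL_ne (f : E →ₗ[F] E) (i : Fin R) (hi : i.val ≠ 0) (v : E) :
    wrapL f (Pi.single i v) = 0 := by
  funext j
  rw [wrapL_apply, Pi.single_eq_of_ne (by intro e; rw [← e] at hi; simp at hi)]
  simp

theorem wrapL_zero (f : E →ₗ[F] E) (i i' : Fin R) (hi : i.val = 0) (hi' : i'.val + 1 = R)
    (v : E) : wrapL f (Pi.single i v) = Pi.single i' (f v) := by
  have : i = 0 := Fin.ext (by simpa using hi)
  subst this
  funext j
  rw [wrapL_apply]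
  by_cases hj : j = i'
  · subst hj; simp [hi']
  · rw [Pi.single_eq_of_ne hj, if_neg]
    intro e
    exact hj (Fin.ext (by omega))

theorem pred_cases {i j i' j' : Fin R} (h : j'.val * R + i'.val + 1 = j.val * R + i.val) :
    (i.val = i'.val + 1 ∧ j = j') ∨ (i.val = 0 ∧ i'.val + 1 = R ∧ j.val = j'.val + 1) := by
  have h1 := i.2
  have h2 := i'.2
  rcases lt_trichotomy j.val j'.val with hj | hj | hj
  · have := Nat.mul_le_mul_right R (Nat.succ_le_of_lt hj)
    rw [Nat.succ_mul] at this
    omega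
  · left
    rw [hj] at h
    exact ⟨by omega, Fin.ext hj⟩
  · right
    rcases (Nat.succ_le_of_lt hj).eq_or_lt with hj2 | hj2
    · rw [← hj2, Nat.succ_mul] at h
      omega
    · have := Nat.mul_le_mul_right R (Nat.succ_le_of_lt hj2)
      rw [Nat.succ_mul, Nat.succ_mul] at this
      omega

theorem exists_pred (i j : Fin R) (h : j.val * R + i.val ≠ 0) :
    ∃ i' j' : Fin R, j'.val * R + i'.val + 1 = j.val * R + i.val := by
  have h1 := i.2
  have h2 := j.2
  by_cases hi : i.val = 0
  · have hj : j.val ≠ 0 := by intro e; simp [e, hi] at h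
    refine ⟨⟨R - 1, by omega⟩, ⟨j.val - 1, by omega⟩, ?_⟩
    obtain ⟨m, hm⟩ := Nat.exists_eq_succ_of_ne_zero hj
    simp only [hm, Nat.succ_sub_one, Nat.succ_mul]
    omega
  · exact ⟨⟨i.val - 1, by omega⟩, j, by simp only; omega⟩

variable {q : ℕ} (n : Fin q → E →ₗ[F] E)

def NN : Bool × Fin q → (Fin R → E) →ₗ[F] (Fin R → E)
  | (true, σ) => shiftL (n σ)
  | (false, σ) => wrapL (n σ)

def MM : Bool × Fin q → (Fin R → E) →ₗ[F] (Fin R → E)
  | (true, σ) => diagL (n σ)
  | (false, σ) => shiftL (n σ)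

theorem sum_zero (Y : (Fin R → E) →ₗ[F] (Fin R → E) →ₗ[F] F) (i j : Fin R)
    (h : j.val * R + i.val = 0) (v w : E) :
    ∑ σ, Y (NN n σ (Pi.single i v)) (MM n σ (Pi.single j w)) = 0 := by
  have hi : i.val = 0 := by omega
  have hj : j.val = 0 := by
    have := NeZero.ne R
    have h2 : j.val * R = 0 := by omega
    simpa [this] using h2
  refine Finset.sum_eq_zero ?_
  rintro ⟨b, σ⟩ -
  cases b
  · simp [MM, shiftL_zero _ _ hj]
  · simp [NN, shiftL_zero _ _ hi]

theorem sum_pred (Y : (Fin R → E) →ₗ[F] (Fin R → E) →ₗ[F] F) {i j i' j' : Fin R}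
    (h : j'.val * R + i'.val + 1 = j.val * R + i.val) (v w : E) :
    ∑ σ, Y (NN n σ (Pi.single i v)) (MM n σ (Pi.single j w)) =
      ∑ σ, Y (Pi.single i' (n σ v)) (Pi.single j' (n σ w)) := by
  rw [Fintype.sum_prod_type, Fintype.sum_bool]
  rcases pred_cases h with ⟨h1, rfl⟩ | ⟨h1, h2, h3⟩
  · simp [NN, MM, shiftL_succ _ _ _ h1, diagL_single, wrapL_ne _ i (by omega)]
  · simp [NN, MM, shiftL_succ _ _ _ h3, shiftL_zero _ _ h1, wrapL_zero _ _ _ h1 h2]

/-- The cyclic successor. -/
def nx (i : Fin R) : Fin R := if h : i.val + 1 < R then ⟨i.val + 1, h⟩ else 0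

theorem NN_apply (σ : Bool × Fin q) (a : Fin R → E) (i : Fin R) :
    NN n σ a i = 0 ∨ NN n σ a i = n σ.2 (a (nx i)) := by
  obtain ⟨b, σ⟩ := σ
  cases b
  · simp only [NN, wrapL_apply, nx]
    split_ifs with h1 h2
    · omega
    · exact Or.inr rfl
    · exact Or.inl rfl
    · exact Or.inl rfl
  · simp only [NN, shiftL_apply, nx]
    split_ifs
    · exact Or.inr rfl
    · exact Or.inl rfl

theorem nx_eq {i j i' j' : Fin R} (h : j'.val * R + i'.val + 1 = j.val * R + i.val) :
    i = nx i' := by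
  have := i.2
  rcases pred_cases h with ⟨h1, -⟩ | ⟨h1, h2, -⟩
  · rw [nx, dif_pos (by omega)]; exact Fin.ext h1
  · rw [nx, dif_neg (by omega)]; exact Fin.ext (by simpa using h1)

theorem span_single : Submodule.span F {a : Fin R → E | ∃ i v, a = Pi.single i v} = ⊤ := by
  rw [eq_top_iff]
  intro a _
  rw [← Finset.univ_sum_single a]
  exact Submodule.sum_mem _ fun i _ => Submodule.subset_span ⟨i, a i, rfl⟩

/-- The form assembled from its blocks. -/
def glue (η : Fin R → Fin R → E →ₗ[F] E →ₗ[F] F) : (Fin R → E) →ₗ[F] (Fin R → E) →ₗ[F] F :=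
  ∑ i, ∑ j, (η i j).compl₁₂ (LinearMap.proj i) (LinearMap.proj j)

theorem glue_apply (η : Fin R → Fin R → E →ₗ[F] E →ₗ[F] F) (a b : Fin R → E) :
    glue η a b = ∑ i, ∑ j, η i j (a i) (b j) := by
  simp [glue, LinearMap.sum_apply]

theorem glue_single (η : Fin R → Fin R → E →ₗ[F] E →ₗ[F] F) (i j : Fin R) (v w : E) :
    glue η (Pi.single i v) (Pi.single j w) = η i j v w := by
  rw [glue_apply, Finset.sum_eq_single i, Finset.sum_eq_single j]
  · simp
  · intro b _ hb; simp [hb]
  · simp
  · intro b _ hb; simp [hb]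
  · simp

theorem Expands.key' [Module.Finite F E] {E' : Type} [AddCommGroup E'] [Module F E']
    {π : E →ₗ[F] E'} {n : Fin q → E →ₗ[F] E} {u D k : ℕ}
    (h : Expands π n u D) (hq : 2 * D < q) (hk : k < u) (ts ts' ss : Fin k → E) (z v : E)
    (hv : v ∉ Submodule.span F (Set.range ts)) (ρ : Dual F E) :
    ∃ η : E →ₗ[F] E →ₗ[F] F, (∀ σ p, η (n σ (ts p)) = 0) ∧ (∀ p, η (ts' p) = 0) ∧ η z = 0 ∧
      (∀ x, π x = 0 → η x = 0) ∧ (∀ x p, η x (ss p) = 0) ∧
      ∀ w, ∑ σ, η (n σ v) (n σ w) = ρ w := by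
  let pad : (Fin k → E) → E → Fin u → E := fun f y p => if h : p.val < k then f ⟨p.val, h⟩ else y
  have hpad : ∀ f y (p : Fin k), pad f y ⟨p.val, by omega⟩ = f p := by
    intro f y p; simp [pad]
  obtain ⟨η, h1, h2, h3, h4, h5⟩ := h.key hq (pad ts 0) (pad ts' z) (pad ss 0) v (by
    intro hm
    refine hv (Submodule.span_le.2 ?_ hm)
    rintro _ ⟨p, rfl⟩
    simp only [pad]
    split_ifs
    · exact Submodule.subset_span ⟨_, rfl⟩
    · exact Submodule.zero_mem _) ρ
  refine ⟨η, fun σ p => hpad ts 0 p ▸ h1 σ _, fun p => hpad ts' z p ▸ h2 _, ?_, h3,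
    fun x p => hpad ss 0 p ▸ h4 x _, h5⟩
  simpa [pad] using h2 ⟨k, hk⟩

end

variable {U : Type} [AddCommGroup U] [Module F U] [Module.Finite F U] [Nontrivial U]
  {q : ℕ} (R : ℕ) [NeZero R] (n : Fin q → (U × U) →ₗ[F] (U × U))

/-- The chain on the grid. -/
noncomputable def grid : Chain (Fin R → U × U) (Fin R → U × U) (Bool × Fin q) where
  N := NN n
  M := MM n
  T := LinearMap.range (LinearMap.single F (fun _ => U × U) 0 ∘ₗ LinearMap.inl F U U)
  C := (exists_cyc _).choose
  hC := (exists_cyc _).choose_spec.1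
  gen := (exists_cyc _).choose_spec.2
  Hom t a b := ∃ (i j : Fin R) (v w : U × U),
    t = j.val * R + i.val ∧ a = Pi.single i v ∧ b = Pi.single j w
  step := by
    rintro t a b ⟨i, j, v, w, rfl, rfl, rfl⟩ ⟨s, σ⟩
    have h1 := i.2
    have h2 := j.2
    cases s
    · by_cases hi : i.val = 0
      · by_cases hj : j.val = 0
        · exact Or.inr (Or.inl (shiftL_zero _ _ hj _))
        · refine Or.inr (Or.inr ⟨_, ?_, ⟨R - 1, by omega⟩, ⟨j.val - 1, by omega⟩, _, _, rfl,
            wrapL_zero _ _ _ hi (by simp only; omega) _,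
            shiftL_succ _ _ _ (by simp only; omega) _⟩)
          obtain ⟨m, hm⟩ := Nat.exists_eq_succ_of_ne_zero hj
          simp only [hm, Nat.succ_sub_one, Nat.succ_mul]
          omega
      · exact Or.inl (wrapL_ne _ _ hi _)
    · by_cases hi : i.val = 0
      · exact Or.inl (shiftL_zero _ _ hi _)
      · exact Or.inr (Or.inr ⟨_, by simp only; omega, ⟨i.val - 1, by omega⟩, j, _, _, rfl,
          shiftL_succ _ _ _ (by simp only; omega) _, diagL_single _ _ _⟩)
  pT a := Pi.single 0 ((a 0).1, 0)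
  pT_mem a := ⟨(a 0).1, rfl⟩
  pT_hom := by
    rintro t a b ⟨i, j, v, w, rfl, rfl, rfl⟩
    by_cases hi : i = 0
    · subst hi
      exact Or.inr ⟨0, j, _, w, rfl, rfl, rfl⟩
    · left
      rw [Pi.single_eq_of_ne (Ne.symm hi)]
      simp
  SA := {a | ∃ i v, a = Pi.single i v}
  SB := {a | ∃ i v, a = Pi.single i v}
  spanA := span_single
  spanB := span_single
  ex := by
    rintro _ ⟨i, v, rfl⟩ _ ⟨j, w, rfl⟩
    exact ⟨_, i, j, v, w, rfl, rfl, rfl⟩
  b0 := (exists_ne (0 : Fin R → U × U)).choose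
  hb0 := (exists_ne (0 : Fin R → U × U)).choose_spec

theorem grid_dft (δ Y : (Fin R → U × U) →ₗ[F] (Fin R → U × U) →ₗ[F] F) (a b : Fin R → U × U) :
    (grid R n).dft δ Y a b = Y a b - δ a b - ∑ σ, Y (NN n σ a) (MM n σ b) :=
  (grid R n).dft_apply δ Y a b

theorem grid_not_wins {u D k l : ℕ} (hn : Expands (LinearMap.snd F U U) n u D)
    (hq : 2 * D < q) (hk : k < u) (δ : (Fin R → U × U) →ₗ[F] (Fin R → U × U) →ₗ[F] F)
    (hδ : ∀ (i j : Fin R) v w, j.val * R + i.val < l → δ (Pi.single i v) (Pi.single j w) = 0) :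
    ¬ Wins (k := k) (G := (grid R n).G 0) (H := (grid R n).G δ) l (fun _ => none) := by
  refine (grid R n).not_wins (δ := δ)
    (fun l Y => ∀ (i j : Fin R) v w, j.val * R + i.val < l →
      Y.1 (Pi.single i v) (Pi.single j w) = 0 ∧ δ (Pi.single i v) (Pi.single j w) = 0)
    (fun Y a => ∀ i, (grid R n).dft δ Y.1 (Pi.single i (a i)) = 0) ?_ ?_ ?_ l _
    ⟨0, fun _ _ => rfl⟩ (fun i j v w h => ⟨rfl, hδ i j v w h⟩) (by simp)
  · intro Y i; simp
  · intro Y a h
    rw [← Finset.univ_sum_single a, map_sum]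
    exact Finset.sum_eq_zero fun i _ => h i
  · intro l Y hl as bs hg a
    have hη : ∀ i' j' : Fin R, ∃ η : (U × U) →ₗ[F] (U × U) →ₗ[F] F,
        (∀ σ p, η (n σ (as p (nx i'))) = 0) ∧ (∀ p, η (as p i') = 0) ∧ η (a i') = 0 ∧
        (∀ x : U × U, x.2 = 0 → η x = 0) ∧ (∀ x p, η x (bs p j') = 0) ∧
        (∀ j : Fin R, j'.val * R + i'.val + 1 = j.val * R + (nx i').val → ∀ w,
          ∑ σ, η (n σ (a (nx i'))) (n σ w) =
            (grid R n).dft δ Y.1 (Pi.single (nx i') (a (nx i'))) (Pi.single j w)) ∧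
        (j'.val * R + i'.val < l → η = 0) := by
      intro i' j'
      by_cases hz : ∀ j : Fin R, j'.val * R + i'.val + 1 = j.val * R + (nx i').val → ∀ w,
          (grid R n).dft δ Y.1 (Pi.single (nx i') (a (nx i'))) (Pi.single j w) = 0
      · exact ⟨0, by simp, by simp, by simp, by simp, by simp,
          fun j hj w => by simp [hz j hj w], fun _ => rfl⟩
      · push Not at hz
        obtain ⟨j, hj, w0, hw0⟩ := hz
        have hv : a (nx i') ∉ Submodule.span F (Set.range fun p => as p (nx i')) := by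
          intro hm
          apply hw0
          have : Submodule.span F (Set.range fun p => as p (nx i')) ≤ LinearMap.ker
              ((grid R n).dft δ Y.1 ∘ₗ LinearMap.single F (fun _ => U × U) (nx i')) := by
            rw [Submodule.span_le]
            rintro _ ⟨p, rfl⟩
            exact hg p (nx i')
          have h2 : (grid R n).dft δ Y.1 (Pi.single (nx i') (a (nx i'))) = 0 := this hm
          rw [h2]; rfl
        obtain ⟨η, h1, h2, h3, h4, h5, h6⟩ := hn.key' hq hk (fun p => as p (nx i'))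
          (fun p => as p i') (fun p => bs p j') (a i') _ hv
          ((grid R n).dft δ Y.1 (Pi.single (nx i') (a (nx i'))) ∘ₗ
            LinearMap.single F (fun _ => U × U) j)
        refine ⟨η, h1, h2, h3, h4, h5, fun j2 hj2 w => ?_, fun hlt => ?_⟩
        · have : j2 = j := by
            apply Fin.ext
            have : j2.val * R = j.val * R := by omega
            exact Nat.eq_of_mul_eq_mul_right (Nat.pos_of_ne_zero (NeZero.ne R)) this
          rw [this]; exact h6 w
        · exfalso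
          apply hw0
          rw [grid_dft, sum_pred n _ hj, (hl _ _ _ _ (by omega)).1, (hl _ _ _ _ (by omega)).2,
            Finset.sum_eq_zero fun σ _ => (hl _ _ _ _ (by omega)).1]
          simp
    choose η h1 h2 h3 h4 h5 h6 h7 using hη
    have hd : ∀ (i j : Fin R) v w, (grid R n).dft δ (Y.1 + glue η) (Pi.single i v)
        (Pi.single j w) = (grid R n).dft δ Y.1 (Pi.single i v) (Pi.single j w) + η i j v w -
          ∑ σ, glue η (NN n σ (Pi.single i v)) (MM n σ (Pi.single j w)) := by
      intro i j v w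
      simp only [grid_dft, LinearMap.add_apply, Finset.sum_add_distrib, glue_single]
      ring
    refine ⟨⟨Y.1 + glue η, ?_⟩, ?_, ?_, ?_, ?_, ?_⟩
    · rintro _ ⟨x, rfl⟩
      rw [LinearMap.add_apply, Y.2 _ ⟨x, rfl⟩, zero_add]
      refine LinearMap.ext fun b => ?_
      rw [glue_apply]
      refine Finset.sum_eq_zero fun i _ => Finset.sum_eq_zero fun j _ => ?_
      rw [h4 i j]
      · rfl
      · by_cases hi : i = 0
        · subst hi; simp
        · simp [hi]
    · intro i j v w h
      refine ⟨?_, (hl i j v w (by omega)).2⟩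
      simp only [LinearMap.add_apply, glue_single, (hl i j v w (by omega)).1, h7 i j h]
      simp
    · intro i
      refine LinearMap.pi_ext fun j w => ?_
      show (grid R n).dft δ (Y.1 + glue η) _ _ = 0
      rw [hd, h3]
      by_cases ht : j.val * R + i.val = 0
      · rw [sum_zero n _ i j ht, grid_dft, sum_zero n _ i j ht, (hl _ _ _ _ (by omega)).1,
          (hl _ _ _ _ (by omega)).2]
        simp
      · obtain ⟨i', j', hp⟩ := exists_pred i j ht
        rw [sum_pred n _ hp]
        simp only [glue_single]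
        have e := nx_eq hp
        subst e
        rw [h6 i' j' j hp]
        simp
    · intro p i
      refine LinearMap.pi_ext fun j w => ?_
      show (grid R n).dft δ (Y.1 + glue η) _ _ = 0
      rw [hd, h2, hg p i]
      by_cases ht : j.val * R + i.val = 0
      · rw [sum_zero n _ i j ht]
        simp
      · obtain ⟨i', j', hp⟩ := exists_pred i j ht
        rw [sum_pred n _ hp]
        simp only [glue_single]
        have e := nx_eq hp
        subst e
        simp [h1]
    · intro p σ
      show Y.1 _ + glue η (NN n σ (as p)) = _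
      rw [add_eq_left]
      refine LinearMap.ext fun b => ?_
      rw [glue_apply]
      refine Finset.sum_eq_zero fun i _ => Finset.sum_eq_zero fun j _ => ?_
      rcases NN_apply n σ (as p) i with h | h <;> rw [h]
      · simp
      · rw [h1]; rfl
    · intro p x
      show Y.1 _ _ + glue η x (bs p) = _
      rw [add_eq_left, glue_apply]
      exact Finset.sum_eq_zero fun i _ => Finset.sum_eq_zero fun j _ => h5 i j _ p

end Pool.Agent.MP_45960e_lc
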