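import Mathlib

/-!
The bijective pebble game on groups (Weisfeiler-Leman, multiplication-table version).
-/

namespace Pool.Agent.MP_45960e_lc

/-- The pebbled pairs of a position (pebble pair `i` is either off the board or lies on a pair
in `G × H`) form a local isomorphism of the multiplication structures. -/
def LocIso {k : ℕ} {G H : Type} [Group G] [Group H] (p : Fin k → Option (G × H)) : Prop :=
  (∀ (i j : Fin k) (x y : G × H), p i = some x → p j = some y → (x.1 = y.1 ↔ x.2 = y.2)) ∧
  (∀ (i j l : Fin k) (x y z : G × H), p i = some x → p j = some y → p l = some z →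
    (x.1 * y.1 = z.1 ↔ x.2 * y.2 = z.2))

/-- Spoiler has a strategy that wins within `r` rounds from the position `p`: he picks up the
pair `i`, Duplicator chooses a bijection `f`, he places the pair on `(g, f g)`; he wins at once
if the pebbled map is not a local isomorphism, and otherwise play goes on. -/
def Wins {k : ℕ} {G H : Type} [Group G] [Group H] : ℕ → (Fin k → Option (G × H)) → Prop
  | 0, _ => False
  | r + 1, p => ∃ i : Fin k, ∀ f : G ≃ H, ∃ g : G,
      ¬ LocIso (Function.update p i (some (g, f g))) ∨
        Wins r (Function.update p i (some (g, f g)))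

/-- `(k, r)`-WL identifies `G`: Spoiler wins the `k`-pebble game within `r` rounds, from the
empty board, against every finite group `H` of the same order that is not isomorphic to `G`. -/
def Identifies (k r : ℕ) (G : Type) [Group G] : Prop :=
  ∀ (H : Type) [Group H] [Finite H], Nat.card H = Nat.card G → IsEmpty (G ≃* H) →
    Wins (k := k) (G := G) (H := H) r (fun _ => none)

/-- `R_k(G)`: the least `r ≥ 1` such that `(k, r)`-WL identifies `G`, and `⊤` if there is none. -/
noncomputable def Rounds (k : ℕ) (G : Type) [Group G] : ℕ∞ :=
  sInf {x : ℕ∞ | ∃ r : ℕ, 1 ≤ r ∧ Identifies k r G ∧ x = r}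

end Pool.Agent.MP_45960e_lc
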