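import Pool.Agent.MP_45960e_lc.Defs

/-!
Back-and-forth systems, and how a Duplicator who never loses gives one.
-/

namespace Pool.Agent.MP_45960e_lc

open Function

/-- A back-and-forth system with `k` pebbles. -/
structure BF (G H : Type) [Group G] [Group H] (k : ℕ) where
  E : List (G × H) → Prop
  sub : ∀ {l l' : List (G × H)}, E l' → (∀ x ∈ l, x ∈ l') → E l
  forth : ∀ {l : List (G × H)}, E l → l.length < k → ∀ g, ∃ h, E ((g, h) :: l)
  back : ∀ {l : List (G × H)}, E l → l.length < k → ∀ h, ∃ g, E ((g, h) :: l)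
  iso : ∀ {l : List (G × H)}, E l → ∀ x ∈ l, ∀ y ∈ l, ∀ z ∈ l,
    (x.1 * y.1 = z.1 ↔ x.2 * y.2 = z.2)
  eqv : ∀ {l : List (G × H)}, E l → ∀ x ∈ l, ∀ y ∈ l, (x.1 = y.1 ↔ x.2 = y.2)

variable {G H K : Type} [Group G] [Group H] [Group K] {k : ℕ}

theorem BF.word (B : BF G H k) {l : List (G × H)} (hl : B.E l) (hk : l.length + 2 ≤ k)
    {x : G × H} (hx : x ∈ Subgroup.closure {y | y ∈ l}) : B.E (x :: l) := by
  induction hx using Subgroup.closure_induction_left with
  | one =>
    obtain ⟨h, hh⟩ := B.forth hl (by omega) 1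
    have h1 := (B.iso hh (1, h) (by simp) (1, h) (by simp) (1, h) (by simp)).1 (by simp)
    have : h = 1 := by simpa using h1
    subst this
    exact hh
  | mul_left s hs x _ ih =>
    obtain ⟨h, hh⟩ := B.forth ih (by simp; omega) (s.1 * x.1)
    have hs' : s ∈ l := hs
    have h1 := (B.iso hh s (by simp [hs']) x (by simp) (s.1 * x.1, h) (by simp)).1 rfl
    refine B.sub hh ?_
    intro y hy
    rcases List.mem_cons.1 hy with rfl | hy
    · have : s * x = (s.1 * x.1, h) := Prod.ext rfl h1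
      rw [this]; simp
    · simp [hy]
  | inv_mul_cancel s hs x _ ih =>
    obtain ⟨h, hh⟩ := B.forth ih (by simp; omega) (s.1⁻¹ * x.1)
    have hs' : s ∈ l := hs
    have h1 := (B.iso hh s (by simp [hs']) (s.1⁻¹ * x.1, h) (by simp) x (by simp)).1 (by simp)
    refine B.sub hh ?_
    intro y hy
    rcases List.mem_cons.1 hy with rfl | hy
    · have : s⁻¹ * x = (s.1⁻¹ * x.1, h) := by
        refine Prod.ext rfl ?_
        show s.2⁻¹ * x.2 = h
        rw [← h1]; simp
      rw [this]; simp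
    · simp [hy]

theorem BF.one_iff (B : BF G H k) {l : List (G × H)} (hl : B.E l) (hk : l.length + 2 ≤ k)
    {x : G × H} (hx : x ∈ Subgroup.closure {y | y ∈ l}) : x.1 = 1 ↔ x.2 = 1 := by
  have h := B.iso (B.word hl hk hx) x (by simp) x (by simp) x (by simp)
  simpa using h

/-- An isomorphism gives a back-and-forth system. -/
def BF.ofIso (φ : G ≃* H) (k : ℕ) : BF G H k where
  E l := ∀ x ∈ l, x.2 = φ x.1
  sub h hs x hx := h x (hs x hx)
  forth h _ g := ⟨φ g, by
    intro x hx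
    rcases List.mem_cons.1 hx with rfl | hx
    · rfl
    · exact h x hx⟩
  back h _ g := ⟨φ.symm g, by
    intro x hx
    rcases List.mem_cons.1 hx with rfl | hx
    · simp
    · exact h x hx⟩
  iso h x hx y hy z hz := by
    rw [h x hx, h y hy, h z hz, ← map_mul]
    exact φ.injective.eq_iff.symm
  eqv h x hx y hy := by
    rw [h x hx, h y hy]
    exact φ.injective.eq_iff.symm

theorem exists_lift {α γ : Type} (π : γ → α) (l3 : List γ) :
    ∀ l : List α, (∀ x ∈ l, x ∈ l3.map π) → ∃ m : List γ, m.map π = l ∧ ∀ t ∈ m, t ∈ l3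
  | [], _ => ⟨[], rfl, by simp⟩
  | x :: l, h => by
    obtain ⟨m, hm, hm'⟩ := exists_lift π l3 l (fun y hy => h y (by simp [hy]))
    obtain ⟨t, ht, rfl⟩ := List.mem_map.1 (h x (by simp))
    refine ⟨t :: m, by simp [hm], ?_⟩
    intro s hs
    rcases List.mem_cons.1 hs with rfl | hs
    · exact ht
    · exact hm' s hs

/-- Composition of a system with the inverse of itself. -/
def BF.loop (B : BF G H k) : BF G G k where
  E l := ∃ m : List (G × H × G), m.map (fun t => (t.1, t.2.2)) = l ∧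
    B.E (m.map fun t => (t.1, t.2.1)) ∧ B.E (m.map fun t => (t.2.2, t.2.1))
  sub := by
    rintro l l' ⟨m, rfl, h1, h2⟩ hs
    obtain ⟨m', rfl, hm'⟩ := exists_lift _ m l hs
    refine ⟨m', rfl, B.sub h1 ?_, B.sub h2 ?_⟩
    · intro x hx
      obtain ⟨t, ht, rfl⟩ := List.mem_map.1 hx
      exact List.mem_map.2 ⟨t, hm' t ht, rfl⟩
    · intro x hx
      obtain ⟨t, ht, rfl⟩ := List.mem_map.1 hx
      exact List.mem_map.2 ⟨t, hm' t ht, rfl⟩
  forth := by
    rintro l ⟨m, rfl, h1, h2⟩ hk g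
    obtain ⟨h, hh⟩ := B.forth h1 (by simpa using hk) g
    obtain ⟨g', hg'⟩ := B.back h2 (by simpa using hk) h
    exact ⟨g', (g, h, g') :: m, by simp, by simpa using hh, by simpa using hg'⟩
  back := by
    rintro l ⟨m, rfl, h1, h2⟩ hk g
    obtain ⟨h, hh⟩ := B.forth h2 (by simpa using hk) g
    obtain ⟨g', hg'⟩ := B.back h1 (by simpa using hk) h
    exact ⟨g', (g', h, g) :: m, by simp, by simpa using hg', by simpa using hh⟩
  iso := by
    rintro l ⟨m, rfl, h1, h2⟩ x hx y hy z hz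
    obtain ⟨a, ha, rfl⟩ := List.mem_map.1 hx
    obtain ⟨b, hb, rfl⟩ := List.mem_map.1 hy
    obtain ⟨c, hc, rfl⟩ := List.mem_map.1 hz
    have e1 := B.iso h1 _ (List.mem_map.2 ⟨a, ha, rfl⟩) _ (List.mem_map.2 ⟨b, hb, rfl⟩) _
      (List.mem_map.2 ⟨c, hc, rfl⟩)
    have e2 := B.iso h2 _ (List.mem_map.2 ⟨a, ha, rfl⟩) _ (List.mem_map.2 ⟨b, hb, rfl⟩) _
      (List.mem_map.2 ⟨c, hc, rfl⟩)
    exact e1.trans e2.symm
  eqv := by
    rintro l ⟨m, rfl, h1, h2⟩ x hx y hy
    obtain ⟨a, ha, rfl⟩ := List.mem_map.1 hx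
    obtain ⟨b, hb, rfl⟩ := List.mem_map.1 hy
    have e1 := B.eqv h1 _ (List.mem_map.2 ⟨a, ha, rfl⟩) _ (List.mem_map.2 ⟨b, hb, rfl⟩)
    have e2 := B.eqv h2 _ (List.mem_map.2 ⟨a, ha, rfl⟩) _ (List.mem_map.2 ⟨b, hb, rfl⟩)
    exact e1.trans e2.symm

/-- `G` is rigid over the constants `c`: every system from `(G, c)` to itself relates only
equal elements. -/
def Rigid (G : Type) [Group G] (k : ℕ) (c : List G) : Prop :=
  ∀ B : BF G G k, ∀ g g' : G, B.E ((g, g') :: c.map fun x => (x, x)) → g' = g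

theorem BF.pebble (B : BF G H k) (h0 : B.E []) :
    ∀ c : List G, c.length ≤ k → ∃ m : List (G × H), m.map Prod.fst = c ∧ B.E m
  | [], _ => ⟨[], rfl, h0⟩
  | g :: c, hc => by
    obtain ⟨m, hm, hE⟩ := B.pebble h0 c (by simp at hc; omega)
    have hlen : m.length = c.length := by rw [← hm]; simp
    obtain ⟨h, hh⟩ := B.forth hE (by simp at hc; omega) g
    exact ⟨(g, h) :: m, by simp [hm], hh⟩

theorem iso_of_rigid [Finite G] [Finite H] (hcard : Nat.card H = Nat.card G) {c : List G}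
    (hc : c.length + 3 ≤ k) (hR : Rigid G k c) (B : BF G H k) (h0 : B.E []) :
    Nonempty (G ≃* H) := by
  obtain ⟨m, rfl, hm⟩ := B.pebble h0 c (by omega)
  have hc' : m.length + 3 ≤ k := by simpa using hc
  have uniq : ∀ g g' h, B.E ((g, h) :: m) → B.E ((g', h) :: m) → g' = g := by
    intro g g' h h1 h2
    refine hR B.loop g g' ⟨(g, h, g') :: m.map (fun x => (x.1, x.2, x.1)), ?_, ?_, ?_⟩
    · simp [Function.comp_def]
    · simpa [Function.comp_def] using h1
    · simpa [Function.comp_def] using h2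
  choose σ hσ using fun h => B.back hm (by omega) h
  have hsurj : Surjective σ := by
    intro g
    obtain ⟨h, hh⟩ := B.forth hm (by omega) g
    exact ⟨h, uniq _ _ _ hh (hσ h)⟩
  have hmul : ∀ h1 h2, σ (h1 * h2) = σ h1 * σ h2 := by
    intro h1 h2
    obtain ⟨g2, e2⟩ := B.back (hσ h1) (by simp; omega) h2
    obtain ⟨g3, e3⟩ := B.back e2 (by simp; omega) (h1 * h2)
    have a2 : σ h2 = g2 := uniq _ _ _ (B.sub e2 (by simp +contextual)) (hσ h2)
    have a3 : σ (h1 * h2) = g3 := uniq _ _ _ (B.sub e3 (by simp +contextual)) (hσ _)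
    rw [a2, a3]
    exact ((B.iso e3 (σ h1, h1) (by simp) (g2, h2) (by simp) (g3, h1 * h2) (by simp)).2 rfl).symm
  have hbij : Bijective σ := (Nat.bijective_iff_surjective_and_card σ).2 ⟨hsurj, hcard⟩
  exact ⟨(MulEquiv.ofBijective (MonoidHom.mk' σ hmul) hbij).symm⟩

theorem wins_step {r r' : ℕ}
    (h : ∀ p : Fin k → Option (G × H), Wins r p → Wins r' p) (p : Fin k → Option (G × H)) :
    Wins (r + 1) p → Wins (r' + 1) p := by
  rintro ⟨i, hi⟩
  refine ⟨i, fun f => ?_⟩
  obtain ⟨g, hg⟩ := hi f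
  exact ⟨g, hg.imp id (h _)⟩

theorem wins_succ : ∀ (r : ℕ) (p : Fin k → Option (G × H)), Wins r p → Wins (r + 1) p
  | 0, _ => fun h => h.elim
  | r + 1, p => wins_step (wins_succ r) p

theorem wins_mono {r r' : ℕ} (h : r ≤ r') (p : Fin k → Option (G × H)) :
    Wins r p → Wins r' p := by
  induction h with
  | refl => exact id
  | step _ ih => exact fun hw => wins_succ _ _ (ih hw)

theorem wins_stable [Finite G] [Finite H] :
    ∃ r ≤ Nat.card (Fin k → Option (G × H)),
      ∀ p : Fin k → Option (G × H), Wins (r + 1) p → Wins r p := by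
  by_contra hne
  push Not at hne
  have key : ∀ r ≤ Nat.card (Fin k → Option (G × H)) + 1,
      r ≤ Set.ncard {p : Fin k → Option (G × H) | Wins r p} := by
    intro r
    induction r with
    | zero => intro _; exact Nat.zero_le _
    | succ r ih =>
      intro hr
      obtain ⟨p, hp1, hp2⟩ := hne r (by omega)
      have hlt : Set.ncard {p : Fin k → Option (G × H) | Wins r p} <
          Set.ncard {p : Fin k → Option (G × H) | Wins (r + 1) p} := by
        refine Set.ncard_lt_ncard ⟨fun q hq => wins_succ _ _ hq, fun hs => hp2 (hs hp1)⟩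
      have := ih (by omega)
      omega
  have h1 := key _ le_rfl
  have h2 : Set.ncard {p : Fin k → Option (G × H) |
      Wins (Nat.card (Fin k → Option (G × H)) + 1) p} ≤ Nat.card (Fin k → Option (G × H)) :=
    Set.ncard_le_card _
  omega

theorem wins_bound [Finite G] [Finite H] (r : ℕ) (p : Fin k → Option (G × H)) (h : Wins r p) :
    Wins (Nat.card (Fin k → Option (G × H))) p := by
  obtain ⟨r0, hr0, hs⟩ := wins_stable (G := G) (H := H) (k := k)
  have key : ∀ j, ∀ p : Fin k → Option (G × H), Wins (r0 + j + 1) p → Wins (r0 + j) p := by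
    intro j
    induction j with
    | zero => exact hs
    | succ j ih => exact wins_step ih
  have key2 : ∀ j, ∀ p : Fin k → Option (G × H), Wins (r0 + j) p → Wins r0 p := by
    intro j
    induction j with
    | zero => exact fun _ h => h
    | succ j ih => exact fun p h => ih p (key j p h)
  exact wins_mono hr0 p (key2 r p (wins_mono (by omega) p h))

theorem exists_free {α : Type} (p : Fin k → Option α) :
    ∀ l : List α, (∀ x ∈ l, ∃ i, p i = some x) →
      ∃ s : Finset (Fin k), s.card ≤ l.length ∧ ∀ x ∈ l, ∃ i ∈ s, p i = some x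
  | [], _ => ⟨∅, by simp, by simp⟩
  | x :: l, h => by
    obtain ⟨s, hs, hs'⟩ := exists_free p l (fun y hy => h y (by simp [hy]))
    obtain ⟨i, hi⟩ := h x (by simp)
    refine ⟨insert i s, (Finset.card_insert_le _ _).trans (by simp; omega), ?_⟩
    intro y hy
    rcases List.mem_cons.1 hy with rfl | hy
    · exact ⟨i, by simp, hi⟩
    · obtain ⟨j, hj, hj'⟩ := hs' y hy
      exact ⟨j, by simp [hj], hj'⟩

theorem ext_step [Finite G] [Finite H] {l : List (G × H)} {p : Fin k → Option (G × H)}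
    (hp : ∀ r, ¬ Wins r p) (hl : ∀ x ∈ l, ∃ i, p i = some x) (hk : l.length < k) :
    ∃ f : G ≃ H, ∀ g, ∃ p' : Fin k → Option (G × H), (∀ r, ¬ Wins r p') ∧ LocIso p' ∧
      ∀ x ∈ (g, f g) :: l, ∃ i, p' i = some x := by
  obtain ⟨s, hs, hs'⟩ := exists_free p l hl
  obtain ⟨i, hi⟩ : ∃ i, i ∉ s := by
    by_contra hne
    push Not at hne
    have : s = Finset.univ := Finset.eq_univ_iff_forall.2 hne
    rw [this] at hs
    simp at hs
    omega
  have h1 := hp (Nat.card (Fin k → Option (G × H)) + 1)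
  simp only [Wins, not_exists, not_forall, not_or, not_not] at h1
  obtain ⟨f, hf⟩ := h1 i
  refine ⟨f, fun g => ⟨_, fun r hr => (hf g).2 (wins_bound r _ hr), (hf g).1, ?_⟩⟩
  intro x hx
  rcases List.mem_cons.1 hx with rfl | hx
  · exact ⟨i, by simp⟩
  · obtain ⟨j, hj, hj'⟩ := hs' x hx
    refine ⟨j, ?_⟩
    rw [update_of_ne (by rintro rfl; exact hi hj)]
    exact hj'

/-- The positions from which Duplicator never loses form a back-and-forth system. -/
def BF.ofGame (G H : Type) [Group G] [Group H] [Finite G] [Finite H] (k : ℕ) : BF G H k where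
  E l := ∃ p : Fin k → Option (G × H), (∀ r, ¬ Wins r p) ∧ LocIso p ∧
      ∀ x ∈ l, ∃ i, p i = some x
  sub := by
    rintro l l' ⟨p, h1, h2, h3⟩ hs
    exact ⟨p, h1, h2, fun x hx => h3 x (hs x hx)⟩
  forth := by
    rintro l ⟨p, h1, -, h3⟩ hk g
    obtain ⟨f, hf⟩ := ext_step h1 h3 hk
    exact ⟨f g, hf g⟩
  back := by
    rintro l ⟨p, h1, -, h3⟩ hk h
    obtain ⟨f, hf⟩ := ext_step h1 h3 hk
    refine ⟨f.symm h, ?_⟩
    have := hf (f.symm h)
    rwa [Equiv.apply_symm_apply] at this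
  iso := by
    rintro l ⟨p, -, h2, h3⟩ x hx y hy z hz
    obtain ⟨i, hi⟩ := h3 x hx
    obtain ⟨j, hj⟩ := h3 y hy
    obtain ⟨m, hm⟩ := h3 z hz
    exact h2.2 i j m x y z hi hj hm
  eqv := by
    rintro l ⟨p, -, h2, h3⟩ x hx y hy
    obtain ⟨i, hi⟩ := h3 x hx
    obtain ⟨j, hj⟩ := h3 y hy
    exact h2.1 i j x y hi hj

theorem identifies_of_rigid [Finite G] {c : List G} (hc : c.length + 3 ≤ k)
    (hR : Rigid G k c) : ∃ r, Identifies k r G := by
  refine ⟨(Nat.card G * Nat.card G + 1) ^ k, ?_⟩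
  intro H _ _ hcard hne
  by_contra hw
  have hN : Nat.card (Fin k → Option (G × H)) = (Nat.card G * Nat.card G + 1) ^ k := by
    simp [Nat.card_fun, Finite.card_option, hcard]
  have hall : ∀ r, ¬ Wins (k := k) (G := G) (H := H) r (fun _ => none) := by
    intro r hr
    exact hw (hN ▸ wins_bound r _ hr)
  have h0 : (BF.ofGame G H k).E [] := ⟨fun _ => none, hall, ⟨by simp, by simp⟩, by simp⟩
  exact hne.false (iso_of_rigid hcard hc hR _ h0).some

end Pool.Agent.MP_45960e_lc
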