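import Pool.Agent.MP_45960e_lc.Game

/-!
The upper triangular group of a bilinear map over the field with three elements.
-/

namespace Pool.Agent.MP_45960e_lc

abbrev F := ZMod 3

theorem unit_sq : ∀ a : Fˣ, a * a = 1 := by decide

theorem unit_sq' : ∀ a : Fˣ, (a : F) * (a : F) = 1 := by decide

section
variable {V W Z : Type} [AddCommGroup V] [Module F V] [AddCommGroup W] [Module F W]
  [AddCommGroup Z] [Module F Z]

/-- Matrices `[[a, v, z], [0, 1, w], [0, 0, d]]`. -/
@[ext] structure Grp (β : V →ₗ[F] W →ₗ[F] Z) where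
  a : Fˣ
  v : V
  z : Z
  w : W
  d : Fˣ

namespace Grp
variable {β β' : V →ₗ[F] W →ₗ[F] Z}

instance : Mul (Grp β) := ⟨fun g h => ⟨g.a * h.a, (g.a : F) • h.v + g.v,
  (g.a : F) • h.z + β g.v h.w + (h.d : F) • g.z, h.w + (h.d : F) • g.w, g.d * h.d⟩⟩
instance : One (Grp β) := ⟨⟨1, 0, 0, 0, 1⟩⟩
instance : Inv (Grp β) := ⟨fun g => ⟨g.a, -(g.a : F) • g.v,
  ((g.a : F) * (g.d : F)) • (β g.v g.w - g.z), -(g.d : F) • g.w, g.d⟩⟩

@[simp] theorem mul_a (g h : Grp β) : (g * h).a = g.a * h.a := rfl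
@[simp] theorem mul_v (g h : Grp β) : (g * h).v = (g.a : F) • h.v + g.v := rfl
@[simp] theorem mul_z (g h : Grp β) :
    (g * h).z = (g.a : F) • h.z + β g.v h.w + (h.d : F) • g.z := rfl
@[simp] theorem mul_w (g h : Grp β) : (g * h).w = h.w + (h.d : F) • g.w := rfl
@[simp] theorem mul_d (g h : Grp β) : (g * h).d = g.d * h.d := rfl
@[simp] theorem one_a : (1 : Grp β).a = 1 := rfl
@[simp] theorem one_v : (1 : Grp β).v = 0 := rfl
@[simp] theorem one_z : (1 : Grp β).z = 0 := rfl
@[simp] theorem one_w : (1 : Grp β).w = 0 := rfl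
@[simp] theorem one_d : (1 : Grp β).d = 1 := rfl
theorem inv_a (g : Grp β) : (g⁻¹).a = g.a := rfl
theorem inv_v (g : Grp β) : (g⁻¹).v = -(g.a : F) • g.v := rfl
theorem inv_z (g : Grp β) : (g⁻¹).z = ((g.a : F) * (g.d : F)) • (β g.v g.w - g.z) := rfl
theorem inv_w (g : Grp β) : (g⁻¹).w = -(g.d : F) • g.w := rfl
theorem inv_d (g : Grp β) : (g⁻¹).d = g.d := rfl

instance : Group (Grp β) where
  mul_assoc g h j := by
    ext
    · simp [mul_assoc]
    · simp only [mul_v, mul_a, Units.val_mul]; module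
    · simp only [mul_z, mul_v, mul_a, mul_w, mul_d, Units.val_mul, map_add, map_smul,
        LinearMap.add_apply, LinearMap.smul_apply]
      module
    · simp only [mul_w, mul_d, Units.val_mul]; module
    · simp [mul_assoc]
  one_mul g := by ext <;> simp
  mul_one g := by ext <;> simp
  inv_mul_cancel g := by
    have hd := unit_sq' g.d
    ext
    · simp [inv_a, unit_sq']
    · simp [inv_a, inv_v]
    · simp only [mul_z, inv_a, inv_v, inv_z, one_z, map_smul, LinearMap.smul_apply, smul_smul]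
      rw [mul_left_comm, hd]
      module
    · simp only [mul_w, inv_w, one_w, smul_smul]
      rw [mul_neg, hd]
      module
    · simp [inv_d, unit_sq']

/-- The group as a plain product of its coordinates. -/
def equivProd : Grp β ≃ Fˣ × V × Z × W × Fˣ where
  toFun g := (g.a, g.v, g.z, g.w, g.d)
  invFun x := ⟨x.1, x.2.1, x.2.2.1, x.2.2.2.1, x.2.2.2.2⟩
  left_inv _ := rfl
  right_inv _ := rfl

instance [Finite V] [Finite W] [Finite Z] : Finite (Grp β) :=
  Finite.of_equiv _ equivProd.symm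

theorem card_eq : Nat.card (Grp β) = 4 * (Nat.card V * Nat.card Z * Nat.card W) := by
  rw [Nat.card_congr equivProd]
  have : Nat.card Fˣ = 2 := by rw [Nat.card_eq_fintype_card]; decide
  simp only [Nat.card_prod, this]
  ring

variable (β) in
def iV (v : V) : Grp β := ⟨1, v, 0, 0, 1⟩
variable (β) in
def iW (w : W) : Grp β := ⟨1, 0, 0, w, 1⟩
variable (β) in
def iZ (z : Z) : Grp β := ⟨1, 0, z, 0, 1⟩
variable (β) in
def tor (a d : Fˣ) : Grp β := ⟨a, 0, 0, 0, d⟩

theorem iZ_inj {z z' : Z} (h : iZ β z = iZ β z') : z = z' := congrArg Grp.z h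

theorem comm_eq (v : V) (w : W) :
    iV β v * iW β w * (iW β w * iV β v)⁻¹ = iZ β (β v w) := by
  rw [mul_inv_eq_iff_eq_mul]
  ext <;> simp [iV, iW, iZ]

theorem iZ_sub (z z' : Z) : iZ β z * (iZ β z')⁻¹ = iZ β (z - z') := by
  rw [mul_inv_eq_iff_eq_mul]
  ext <;> simp [iZ]

theorem decomp (g : Grp β) : ∃ v w z, g = iV β v * (iW β w * (iZ β z * tor β g.a g.d)) := by
  refine ⟨g.v, (g.d : F) • g.w, (g.d : F) • (g.z - β g.v g.w), ?_⟩
  ext <;> simp [iV, iW, iZ, tor, smul_smul, unit_sq']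

end Grp

theorem eq_zero_of_neg {M : Type} [AddCommGroup M] [Module F M] {x : M} (h : -x = x) :
    x = 0 := by
  have h2 : (2 : F) • x = 0 := by rw [two_smul]; nth_rewrite 1 [← h]; simp
  have h4 : ((2 : F) * 2) = 1 := by decide
  calc x = ((2 : F) * 2) • x := by rw [h4, one_smul]
    _ = 0 := by rw [mul_smul, h2, smul_zero]

theorem three_eq_zero {M : Type} [AddCommGroup M] [Module F M] (x : M) : x + x + x = 0 := by
  have h3 : ((1 : F) + 1 + 1) = 0 := by decide
  calc x + x + x = ((1 : F) + 1 + 1) • x := by module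
    _ = 0 := by rw [h3, zero_smul]

theorem unit_cube : ∀ a : Fˣ, a * a * a = 1 → a = 1 := by decide

theorem unit_cases : ∀ a : Fˣ, a = 1 ∨ a = -1 := by decide

namespace Grp
variable {β β' : V →ₗ[F] W →ₗ[F] Z}

theorem eq_iV (g : Grp β) (h1 : g * tor β 1 (-1) = tor β 1 (-1) * g) (h3 : g * g * g = 1) :
    ∃ v, g = iV β v := by
  have ha := unit_cube _ (congrArg Grp.a h3)
  have hd := unit_cube _ (congrArg Grp.d h3)
  have hz : g.z = 0 := eq_zero_of_neg (by simpa [tor] using congrArg Grp.z h1)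
  have hw : g.w = 0 := eq_zero_of_neg (by simpa [tor] using congrArg Grp.w h1)
  exact ⟨g.v, Grp.ext ha rfl hz hw hd⟩

theorem eq_iW (g : Grp β) (h1 : g * tor β (-1) 1 = tor β (-1) 1 * g) (h3 : g * g * g = 1) :
    ∃ w, g = iW β w := by
  have ha := unit_cube _ (congrArg Grp.a h3)
  have hd := unit_cube _ (congrArg Grp.d h3)
  have hz : g.z = 0 := eq_zero_of_neg (by simpa [tor, eq_comm] using congrArg Grp.z h1)
  have hv : g.v = 0 := eq_zero_of_neg (by simpa [tor, eq_comm] using congrArg Grp.v h1)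
  exact ⟨g.w, Grp.ext ha hv hz rfl hd⟩

theorem eq_iZ (g : Grp β) (h1 : g * tor β (-1) (-1) = tor β (-1) (-1) * g)
    (h3 : g * g * g = 1) : ∃ z, g = iZ β z := by
  have ha := unit_cube _ (congrArg Grp.a h3)
  have hd := unit_cube _ (congrArg Grp.d h3)
  have hv : g.v = 0 := eq_zero_of_neg (by simpa [tor, eq_comm] using congrArg Grp.v h1)
  have hw : g.w = 0 := eq_zero_of_neg (by simpa [tor] using congrArg Grp.w h1)
  exact ⟨g.z, Grp.ext ha hv rfl hw hd⟩

end Grp

open Grp

variable {β β' : V →ₗ[F] W →ₗ[F] Z} {k : ℕ}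

theorem BF.sortAux {G H : Type} [Group G] [Group H] (B : BF G H k) {l : List (G × H)}
    (hl : B.E l) (hk : l.length + 2 ≤ k) {x t : G × H}
    (hx : x ∈ Subgroup.closure {y | y ∈ l}) (ht : t ∈ Subgroup.closure {y | y ∈ l})
    (h1 : x.1 * t.1 = t.1 * x.1) (h3 : x.1 * x.1 * x.1 = 1) :
    x.2 * t.2 = t.2 * x.2 ∧ x.2 * x.2 * x.2 = 1 := by
  constructor
  · have := (B.one_iff hl hk (mul_mem (mul_mem hx ht) (inv_mem (mul_mem ht hx)))).1
      (by simp [h1])
    simpa [mul_inv_eq_iff_eq_mul, mul_assoc] using (mul_inv_eq_one.1 this)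
  · exact (B.one_iff hl hk (mul_mem (mul_mem hx hx) hx)).1 h3

theorem BF.forthV (B : BF (Grp β) (Grp β') k) {l : List (Grp β × Grp β')} (hl : B.E l)
    (hk : l.length + 3 ≤ k) (ht : (tor β 1 (-1), tor β' 1 (-1)) ∈ l) (v : V) :
    ∃ v', B.E ((iV β v, iV β' v') :: l) := by
  obtain ⟨h, hh⟩ := B.forth hl (by omega) (iV β v)
  obtain ⟨h1, h3⟩ := B.sortAux hh (by simp; omega) (x := (iV β v, h))
    (t := (tor β 1 (-1), tor β' 1 (-1))) (Subgroup.subset_closure (by simp))
    (Subgroup.subset_closure (by simp [ht])) (by ext <;> simp [iV, tor])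
    (by ext <;> simp [iV, ← add_assoc, three_eq_zero])
  obtain ⟨v', rfl⟩ := eq_iV h h1 h3
  exact ⟨v', hh⟩

theorem BF.forthW (B : BF (Grp β) (Grp β') k) {l : List (Grp β × Grp β')} (hl : B.E l)
    (hk : l.length + 3 ≤ k) (ht : (tor β (-1) 1, tor β' (-1) 1) ∈ l) (w : W) :
    ∃ w', B.E ((iW β w, iW β' w') :: l) := by
  obtain ⟨h, hh⟩ := B.forth hl (by omega) (iW β w)
  obtain ⟨h1, h3⟩ := B.sortAux hh (by simp; omega) (x := (iW β w, h))
    (t := (tor β (-1) 1, tor β' (-1) 1)) (Subgroup.subset_closure (by simp))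
    (Subgroup.subset_closure (by simp [ht])) (by ext <;> simp [iW, tor])
    (by ext <;> simp [iW, ← add_assoc, three_eq_zero])
  obtain ⟨w', rfl⟩ := eq_iW h h1 h3
  exact ⟨w', hh⟩

theorem BF.forthZ (B : BF (Grp β) (Grp β') k) {l : List (Grp β × Grp β')} (hl : B.E l)
    (hk : l.length + 3 ≤ k) (ht : (tor β (-1) 1, tor β' (-1) 1) ∈ l)
    (ht' : (tor β 1 (-1), tor β' 1 (-1)) ∈ l) (z : Z) :
    ∃ z', B.E ((iZ β z, iZ β' z') :: l) := by
  obtain ⟨h, hh⟩ := B.forth hl (by omega) (iZ β z)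
  have e : ((tor β (-1) (-1), tor β' (-1) (-1)) : Grp β × Grp β') =
      (tor β (-1) 1, tor β' (-1) 1) * (tor β 1 (-1), tor β' 1 (-1)) := by
    ext <;> simp [tor]
  obtain ⟨h1, h3⟩ := B.sortAux hh (by simp; omega) (x := (iZ β z, h))
    (t := (tor β (-1) (-1), tor β' (-1) (-1))) (Subgroup.subset_closure (by simp))
    (e ▸ mul_mem (Subgroup.subset_closure (by simp [ht]))
      (Subgroup.subset_closure (by simp [ht']))) (by ext <;> simp [iZ, tor])
    (by ext <;> simp [iZ, ← add_assoc, three_eq_zero])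
  obtain ⟨z', rfl⟩ := eq_iZ h h1 h3
  exact ⟨z', hh⟩

theorem BF.beta (B : BF (Grp β) (Grp β') k) {l : List (Grp β × Grp β')} (hl : B.E l)
    (hk : l.length + 2 ≤ k) {v v' : V} {w w' : W} (h1 : (iV β v, iV β' v') ∈ l)
    (h2 : (iW β w, iW β' w') ∈ l) : B.E ((iZ β (β v w), iZ β' (β' v' w')) :: l) := by
  have a1 := Subgroup.subset_closure (k := {y | y ∈ l}) h1
  have a2 := Subgroup.subset_closure (k := {y | y ∈ l}) h2
  have := B.word hl hk (mul_mem (mul_mem a1 a2) (inv_mem (mul_mem a2 a1)))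
  simpa only [Prod.mk_mul_mk, Prod.inv_mk, comm_eq] using this

theorem BF.subZ (B : BF (Grp β) (Grp β') k) {l : List (Grp β × Grp β')} (hl : B.E l)
    (hk : l.length + 2 ≤ k) {a a' b b' : Z} (h1 : (iZ β a, iZ β' a') ∈ l)
    (h2 : (iZ β b, iZ β' b') ∈ l) : B.E ((iZ β (a - b), iZ β' (a' - b')) :: l) := by
  have a1 := Subgroup.subset_closure (k := {y | y ∈ l}) h1
  have a2 := Subgroup.subset_closure (k := {y | y ∈ l}) h2
  have := B.word hl hk (mul_mem a1 (inv_mem a2))
  simpa only [Prod.mk_mul_mk, Prod.inv_mk, iZ_sub] using this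

/-- The centre sort is rigid. -/
theorem BF.fixZ (B : BF (Grp β) (Grp β') k) {cs : List (Grp β × Grp β')}
    (hk : cs.length + 5 ≤ k) (ht : (tor β (-1) 1, tor β' (-1) 1) ∈ cs)
    (ht' : (tor β 1 (-1), tor β' 1 (-1)) ∈ cs) {e e' : W} {g : V} (ρ : V → Z) (C : Z → Z)
    (he : (iW β e, iW β' e) ∈ cs) (he' : (iW β e', iW β' e') ∈ cs)
    (hg : (iV β g, iV β' g) ∈ cs) (hρ : Function.Surjective ρ)
    (h1 : ∀ v, β v e = ρ v) (h2 : ∀ v, β' v e = ρ v)
    (h3 : ∀ v, β v e' = C (ρ v)) (h4 : ∀ v, β' v e' = C (ρ v))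
    (hgen : ∀ p : Z → Prop, p (ρ g) → (∀ a b, p a → p b → p (a + b)) →
      (∀ a, p a → p (C a)) → ∀ z, p z) (z z' : Z)
    (hz : B.E ((iZ β z, iZ β' z') :: cs)) : z' = z := by
  revert z'
  refine hgen (fun z => ∀ z', B.E ((iZ β z, iZ β' z') :: cs) → z' = z) ?_ ?_ ?_ z
  · intro z' hz
    have h := B.beta hz (by simp; omega) (List.mem_cons_of_mem _ hg)
      (List.mem_cons_of_mem _ he)
    rw [h1, h2] at h
    exact iZ_inj ((B.eqv h (iZ β (ρ g), iZ β' z') (by simp) (iZ β (ρ g), iZ β' (ρ g))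
      (by simp)).1 rfl)
  · intro a b ha hb z' hz
    obtain ⟨a', h⟩ := B.forthZ hz (by simp; omega) (by simp [ht]) (by simp [ht']) a
    have e1 : a' = a := ha a' (B.sub h (by simp +contextual))
    subst e1
    have h' := B.subZ h (by simp; omega) (a := a' + b) (a' := z') (b := a') (b' := a')
      (by simp) (by simp)
    have e2 := hb (z' - a') (B.sub h' (by simp +contextual))
    rw [← e2]; abel
  · intro a ha z' hz
    obtain ⟨v, rfl⟩ := hρ a
    obtain ⟨v', h⟩ := B.forthV hz (by simp; omega) (by simp [ht']) v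
    have h' := B.beta h (by simp; omega) (v := v) (v' := v') (w := e) (w' := e) (by simp)
      (by simp [he])
    rw [h1, h2] at h'
    have e1 := ha (ρ v') (B.sub h' (by simp +contextual))
    have h'' := B.beta h (by simp; omega) (v := v) (v' := v') (w := e') (w' := e') (by simp)
      (by simp [he'])
    rw [h3, h4, e1] at h''
    exact iZ_inj ((B.eqv h'' (iZ β (C (ρ v)), iZ β' z') (by simp)
      (iZ β (C (ρ v)), iZ β' (C (ρ v))) (by simp)).1 rfl)

/-- If the three sorts are rigid then so is the group. -/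
theorem BF.fixAll (B : BF (Grp β) (Grp β) k) {cs : List (Grp β × Grp β)}
    (hk : cs.length + 5 ≤ k) (ht : (tor β (-1) 1, tor β (-1) 1) ∈ cs)
    (ht' : (tor β 1 (-1), tor β 1 (-1)) ∈ cs)
    (hV : ∀ v v', B.E ((iV β v, iV β v') :: cs) → v' = v)
    (hW : ∀ v v', B.E ((iW β v, iW β v') :: cs) → v' = v)
    (hZ : ∀ v v', B.E ((iZ β v, iZ β v') :: cs) → v' = v)
    (g g' : Grp β) (hg : B.E ((g, g') :: cs)) : g' = g := by
  let P : Grp β → Prop := fun g => ∀ g', B.E ((g, g') :: cs) → g' = g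
  have hmul : ∀ x y, (∀ l : List (Grp β × Grp β), B.E l → l.length + 3 ≤ k →
      (∀ t ∈ cs, t ∈ l) → B.E ((x, x) :: l)) → P y → P (x * y) := by
    intro x y hx hy g' hg
    have h := hx _ hg (by simp; omega) (by simp +contextual)
    have a1 := Subgroup.subset_closure (k := {t | t ∈ (x, x) :: (x * y, g') :: cs})
      (show (x, x) ∈ (x, x) :: (x * y, g') :: cs by simp)
    have a2 := Subgroup.subset_closure (k := {t | t ∈ (x, x) :: (x * y, g') :: cs})
      (show (x * y, g') ∈ (x, x) :: (x * y, g') :: cs by simp)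
    have h' := B.word h (by simp; omega) (mul_mem (inv_mem a1) a2)
    have e := hy (x⁻¹ * g') (B.sub h' (by simp +contextual))
    rw [← e]; simp
  have hT : ∀ a d, P (tor β a d) := by
    intro a d g' hg
    have a1 := Subgroup.subset_closure (k := {t | t ∈ (tor β a d, g') :: cs})
      (List.mem_cons_of_mem _ ht)
    have a2 := Subgroup.subset_closure (k := {t | t ∈ (tor β a d, g') :: cs})
      (List.mem_cons_of_mem _ ht')
    have hm : ((tor β a d, tor β a d) : Grp β × Grp β) ∈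
        Subgroup.closure {t | t ∈ (tor β a d, g') :: cs} := by
      rcases unit_cases a with rfl | rfl <;> rcases unit_cases d with rfl | rfl
      · exact one_mem _
      · exact a2
      · exact a1
      · have e : ((tor β (-1) (-1), tor β (-1) (-1)) : Grp β × Grp β) =
            (tor β (-1) 1, tor β (-1) 1) * (tor β 1 (-1), tor β 1 (-1)) := by
          ext <;> simp [tor]
        exact e ▸ mul_mem a1 a2
    have h := B.word hg (by simp; omega) hm
    exact (B.eqv h (tor β a d, g') (by simp) (tor β a d, tor β a d) (by simp)).1 rfl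
  obtain ⟨v, w, z, e⟩ := decomp g
  revert g'
  show P g
  rw [e]
  refine hmul _ _ ?_ (hmul _ _ ?_ (hmul _ _ ?_ (hT _ _)))
  · intro l hl hl' hs
    obtain ⟨v', h⟩ := B.forthV hl hl' (hs _ ht') v
    have := hV v v' (B.sub h (by simp +contextual [hs]))
    rwa [this] at h
  · intro l hl hl' hs
    obtain ⟨v', h⟩ := B.forthW hl hl' (hs _ ht) w
    have := hW w v' (B.sub h (by simp +contextual [hs]))
    rwa [this] at h
  · intro l hl hl' hs
    obtain ⟨v', h⟩ := B.forthZ hl hl' (hs _ ht) (hs _ ht') z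
    have := hZ z v' (B.sub h (by simp +contextual [hs]))
    rwa [this] at h

end

end Pool.Agent.MP_45960e_lc
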