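import Pool.Agent.MP_45960e_lc.Rigid

/-!
Duplicator's strategy: she keeps a bilinear form that repairs the twist on the pebbled elements.
-/

namespace Pool.Agent.MP_45960e_lc

open Module Grp Function

set_option synthInstance.maxHeartbeats 20000
set_option maxHeartbeats 400000

set_option linter.unusedSectionVars false

section
variable {V W Z : Type} [AddCommGroup V] [Module F V] [AddCommGroup W] [Module F W]
  [AddCommGroup Z] [Module F Z] {β β' : V →ₗ[F] W →ₗ[F] Z}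

def Grp.mapc (fV : V → V) (fW : W → W) (g : Grp β) : Grp β' := ⟨g.a, fV g.v, g.z, fW g.w, g.d⟩

variable (fV : V → V) (fW : W → W) (g : Grp β)

theorem Grp.mapc_a : (Grp.mapc fV fW g : Grp β').a = g.a := rfl
theorem Grp.mapc_v : (Grp.mapc fV fW g : Grp β').v = fV g.v := rfl
theorem Grp.mapc_z : (Grp.mapc fV fW g : Grp β').z = g.z := rfl
theorem Grp.mapc_w : (Grp.mapc fV fW g : Grp β').w = fW g.w := rfl
theorem Grp.mapc_d : (Grp.mapc fV fW g : Grp β').d = g.d := rfl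

end

variable {A B S : Type} [AddCommGroup A] [Module F A] [AddCommGroup B] [Module F B] [Fintype S]

namespace Chain
variable (c : Chain A B S)

/-- Forms that vanish on the top subspace. -/
def YY : Submodule F (A →ₗ[F] B →ₗ[F] F) where
  carrier := {Y | ∀ a ∈ c.T, Y a = 0}
  add_mem' := by
    intro x y hx hy a ha
    simp [hx a ha, hy a ha]
  zero_mem' := by intro a _; rfl
  smul_mem' := by
    intro t x hx a ha
    simp [hx a ha]

def negY (Y : c.YY) : c.YY := ⟨-Y.1, fun a ha => by simp [Y.2 a ha]⟩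

theorem negY_negY (Y : c.YY) : c.negY (c.negY Y) = Y := Subtype.ext (neg_neg Y.1)

def flipY (Y : c.YY) (b : B) : c.T.dualAnnihilator :=
  ⟨Y.1.flip b, (Submodule.mem_dualAnnihilator _).2 fun a ha => by simp [Y.2 a ha]⟩

def PhiV (Y : c.YY) (v : VV A B S) : VV A B S :=
  (v.1, v.2.1 + fun σ => Y.1 (c.N σ v.1.2.2.1), v.2.2)

def PhiW (Y : c.YY) (w : WW B c.T) : WW B c.T := (w.1, w.2.1 + c.flipY Y w.1, w.2.2)

def Phi {δ δ' : A →ₗ[F] B →ₗ[F] F} (Y : c.YY) (g : c.G δ) : c.G δ' :=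
  Grp.mapc (c.PhiV Y) (c.PhiW Y) g

/-- The defect of a form with respect to a twist. -/
def dft (δ Y : A →ₗ[F] B →ₗ[F] F) : A →ₗ[F] B →ₗ[F] F :=
  Y - δ - ∑ σ, Y.compl₁₂ (c.N σ) (c.M σ)

theorem dft_apply (δ Y : A →ₗ[F] B →ₗ[F] F) (a : A) (b : B) :
    c.dft δ Y a b = Y a b - δ a b - ∑ σ, Y (c.N σ a) (c.M σ b) := by
  simp [dft, LinearMap.sum_apply]

theorem Phi_a {δ δ' : A →ₗ[F] B →ₗ[F] F} (Y : c.YY) (g : c.G δ) :
    (c.Phi Y g : c.G δ').a = g.a := Grp.mapc_a _ _ _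
theorem Phi_v {δ δ' : A →ₗ[F] B →ₗ[F] F} (Y : c.YY) (g : c.G δ) :
    (c.Phi Y g : c.G δ').v = c.PhiV Y g.v := Grp.mapc_v _ _ _
theorem Phi_z {δ δ' : A →ₗ[F] B →ₗ[F] F} (Y : c.YY) (g : c.G δ) :
    (c.Phi Y g : c.G δ').z = g.z := Grp.mapc_z _ _ _
theorem Phi_w {δ δ' : A →ₗ[F] B →ₗ[F] F} (Y : c.YY) (g : c.G δ) :
    (c.Phi Y g : c.G δ').w = c.PhiW Y g.w := Grp.mapc_w _ _ _
theorem Phi_d {δ δ' : A →ₗ[F] B →ₗ[F] F} (Y : c.YY) (g : c.G δ) :
    (c.Phi Y g : c.G δ').d = g.d := Grp.mapc_d _ _ _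

theorem PhiV_fst (Y : c.YY) (v : VV A B S) : (c.PhiV Y v).1 = v.1 := rfl
theorem PhiW_fst (Y : c.YY) (w : WW B c.T) : (c.PhiW Y w).1 = w.1 := rfl

theorem PhiV_neg (Y : c.YY) (v : VV A B S) : c.PhiV (c.negY Y) (c.PhiV Y v) = v := by
  obtain ⟨r, P, x⟩ := v
  simp only [PhiV, Prod.mk.injEq, true_and, and_true]
  funext σ
  simp [negY]

theorem PhiW_neg (Y : c.YY) (w : WW B c.T) : c.PhiW (c.negY Y) (c.PhiW Y w) = w := by
  obtain ⟨b, Q, x⟩ := w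
  simp only [PhiW, Prod.mk.injEq, true_and, and_true]
  ext a
  simp [negY, flipY]

theorem PhiV_lin (Y : c.YY) (t : F) (v v' : VV A B S) :
    c.PhiV Y (t • v + v') = t • c.PhiV Y v + c.PhiV Y v' := by
  obtain ⟨r, P, x⟩ := v
  obtain ⟨r', P', x'⟩ := v'
  simp only [PhiV, Prod.smul_mk, Prod.mk_add_mk, Prod.mk.injEq, true_and, and_true]
  funext σ
  simp
  abel

theorem PhiW_lin (Y : c.YY) (t : F) (w w' : WW B c.T) :
    c.PhiW Y (w + t • w') = c.PhiW Y w + t • c.PhiW Y w' := by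
  obtain ⟨r, P, x⟩ := w
  obtain ⟨r', P', x'⟩ := w'
  simp only [PhiW, Prod.smul_mk, Prod.mk_add_mk, Prod.mk.injEq, true_and, and_true]
  ext a
  simp [flipY]
  ring

theorem Phi_neg {δ δ' : A →ₗ[F] B →ₗ[F] F} (Y : c.YY) (g : c.G δ) :
    (c.Phi (c.negY Y) (c.Phi Y g : c.G δ') : c.G δ) = g := by
  refine Grp.ext ?_ ?_ ?_ ?_ ?_
  · rw [Phi_a, Phi_a]
  · rw [Phi_v, Phi_v, PhiV_neg]
  · rw [Phi_z, Phi_z]
  · rw [Phi_w, Phi_w, PhiW_neg]
  · rw [Phi_d, Phi_d]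

theorem Phi_inj {δ δ' : A →ₗ[F] B →ₗ[F] F} (Y : c.YY) :
    Injective (c.Phi Y : c.G δ → c.G δ') := LeftInverse.injective (c.Phi_neg Y)

/-- Duplicator's bijection. -/
def bij {δ δ' : A →ₗ[F] B →ₗ[F] F} (Y : A → c.YY) : c.G δ ≃ c.G δ' where
  toFun g := c.Phi (Y g.v.1.2.2.1) g
  invFun g := c.Phi (c.negY (Y g.v.1.2.2.1)) g
  left_inv g := by
    simp only [Phi_v, PhiV_fst]
    exact c.Phi_neg _ g
  right_inv g := by
    simp only [Phi_v, PhiV_fst]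
    have := c.Phi_neg (δ' := δ) (c.negY (Y g.v.1.2.2.1)) g
    rw [negY_negY] at this
    exact this

theorem bij_apply {δ δ' : A →ₗ[F] B →ₗ[F] F} (Y : A → c.YY) (g : c.G δ) :
    (c.bij Y g : c.G δ') = c.Phi (Y g.v.1.2.2.1) g := rfl

theorem beta_Phi {δ : A →ₗ[F] B →ₗ[F] F} (Y : c.YY) (v : VV A B S) (w : WW B c.T)
    (h : c.dft δ Y.1 v.1.2.2.1 w.1 = 0) :
    c.beta δ (c.PhiV Y v) (c.PhiW Y w) = c.beta 0 v w := by
  have : c.col δ (c.PhiV Y v) (c.PhiW Y w) = c.col 0 v w := by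
    funext o
    rw [dft_apply] at h
    cases o with
    | none =>
      simp [col, PhiV, PhiW, flipY, Finset.sum_add_distrib]
      linear_combination -h
    | some σ => simp [col, PhiV, PhiW, flipY]
  rw [beta_apply, beta_apply, this]
  simp only [PhiV, PhiW]

theorem Phi_mul {δ : A →ₗ[F] B →ₗ[F] F} (Y : c.YY) (g h : c.G 0)
    (hd : c.dft δ Y.1 g.v.1.2.2.1 h.w.1 = 0) :
    (c.Phi Y (g * h) : c.G δ) = c.Phi Y g * c.Phi Y h := by
  refine Grp.ext ?_ ?_ ?_ ?_ ?_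
  · rw [Phi_a, mul_a, mul_a, Phi_a, Phi_a]
  · rw [Phi_v, mul_v, mul_v, Phi_a, Phi_v, Phi_v, PhiV_lin]
  · rw [Phi_z, mul_z, mul_z, Phi_a, Phi_v, Phi_w, Phi_z, Phi_z, Phi_d, c.beta_Phi Y _ _ hd]
  · rw [Phi_w, mul_w, mul_w, Phi_d, Phi_w, Phi_w, PhiW_lin]
  · rw [Phi_d, mul_d, mul_d, Phi_d, Phi_d]

theorem Phi_congr {δ δ' : A →ₗ[F] B →ₗ[F] F} {Y Y' : c.YY} (g : c.G δ)
    (h1 : ∀ σ, Y'.1 (c.N σ g.v.1.2.2.1) = Y.1 (c.N σ g.v.1.2.2.1))
    (h2 : ∀ a, Y'.1 a g.w.1 = Y.1 a g.w.1) : (c.Phi Y' g : c.G δ') = c.Phi Y g := by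
  have e1 : c.PhiV Y' g.v = c.PhiV Y g.v := by simp only [PhiV, h1]
  have e2 : c.flipY Y' g.w.1 = c.flipY Y g.w.1 := by
    ext a
    simp [flipY, h2]
  simp only [Phi, Grp.mapc, e1, PhiW, e2]

theorem not_wins {δ : A →ₗ[F] B →ₗ[F] F} {k : ℕ} (Low : ℕ → c.YY → Prop)
    (Good : c.YY → A → Prop) (h0 : ∀ Y, Good Y 0)
    (hG : ∀ Y a, Good Y a → c.dft δ Y.1 a = 0)
    (hstep : ∀ l Y, Low (l + 1) Y → ∀ (as : Fin k → A) (bs : Fin k → B), (∀ i, Good Y (as i)) →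
      ∀ a, ∃ Y', Low l Y' ∧ Good Y' a ∧ (∀ i, Good Y' (as i)) ∧
        (∀ i σ, Y'.1 (c.N σ (as i)) = Y.1 (c.N σ (as i))) ∧ ∀ i x, Y'.1 x (bs i) = Y.1 x (bs i))
    (l : ℕ) : ∀ (p : Fin k → Option (c.G 0 × c.G δ)) (Y : c.YY), Low l Y →
      (∀ i x, p i = some x → x.2 = c.Phi Y x.1 ∧ Good Y x.1.v.1.2.2.1) → ¬ Wins l p := by
  induction l with
  | zero => intro p Y _ _ h; exact h
  | succ l ih =>
    rintro p Y hl hp ⟨i, hi⟩
    have hs := hstep l Y hl (fun j => (p j).elim 0 fun x => x.1.v.1.2.2.1)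
      (fun j => (p j).elim 0 fun x => x.1.w.1) (by
        intro j
        cases h : p j with
        | none => exact h0 Y
        | some x => exact (hp j x h).2)
    choose Y' h1 h2 h3 h4 h5 using hs
    obtain ⟨g, hg⟩ := hi (c.bij Y')
    have hinv : ∀ j x, update p i (some (g, c.bij Y' g)) j = some x →
        x.2 = c.Phi (Y' g.v.1.2.2.1) x.1 ∧ Good (Y' g.v.1.2.2.1) x.1.v.1.2.2.1 := by
      intro j x hx
      by_cases hj : j = i
      · subst hj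
        rw [update_self] at hx
        cases hx
        exact ⟨c.bij_apply _ _, h2 _⟩
      · rw [update_of_ne hj] at hx
        refine ⟨?_, by simpa [hx] using h3 g.v.1.2.2.1 j⟩
        rw [(hp j x hx).1]
        exact (c.Phi_congr _ (by simpa [hx] using h4 g.v.1.2.2.1 j)
          (by simpa [hx] using h5 g.v.1.2.2.1 j)).symm
    rcases hg with hg | hg
    · apply hg
      constructor
      · intro a b x y hx hy
        rw [(hinv a x hx).1, (hinv b y hy).1]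
        exact (c.Phi_inj _).eq_iff.symm
      · intro a b e x y z hx hy hz
        rw [(hinv a x hx).1, (hinv b y hy).1, (hinv e z hz).1,
          ← c.Phi_mul _ _ _ (by rw [hG _ _ (hinv a x hx).2]; rfl)]
        exact (c.Phi_inj _).eq_iff.symm
    · exact ih _ _ (h1 _) hinv hg

end Chain

end Pool.Agent.MP_45960e_lc
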