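import Pool.Agent.MP_45960e_lc.Blocks

/-!
Choice of the parameters.
-/

namespace Pool.Agent.MP_45960e_lc

open Module Function

set_option synthInstance.maxHeartbeats 40000
set_option maxHeartbeats 800000
set_option linter.unusedSectionVars false

section
variable {U : Type} [AddCommGroup U] [Module F U] {s : ℕ} [NeZero (s + s)]

/-- The twists. -/
def tw (p : Fin s → U →ₗ[F] U →ₗ[F] F) :
    (Fin (s + s) → U × U) →ₗ[F] (Fin (s + s) → U × U) →ₗ[F] F :=
  ∑ j, (p j).compl₁₂ (LinearMap.fst F U U ∘ₗ LinearMap.proj 0)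
    (LinearMap.fst F U U ∘ₗ LinearMap.proj (Fin.natAdd s j))

theorem tw_apply (p : Fin s → U →ₗ[F] U →ₗ[F] F) (a b : Fin (s + s) → U × U) :
    tw p a b = ∑ j, p j (a 0).1 (b (Fin.natAdd s j)).1 := by
  simp [tw, LinearMap.sum_apply]

theorem tw_inj : Injective (tw (U := U) (s := s)) := by
  intro p p' h
  funext j
  refine LinearMap.ext fun x => LinearMap.ext fun y => ?_
  have key : ∀ p : Fin s → U →ₗ[F] U →ₗ[F] F,
      tw p (Pi.single 0 (x, 0)) (Pi.single (Fin.natAdd s j) (y, 0)) = p j x y := by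
    intro p
    rw [tw_apply, Finset.sum_eq_single j]
    · simp
    · intro b _ hb
      rw [Pi.single_eq_of_ne (i' := Fin.natAdd s b) (by simpa using hb)]
      simp
    · simp
  rw [← key p, ← key p', h]

theorem tw_low (p : Fin s → U →ₗ[F] U →ₗ[F] F) (i j : Fin (s + s)) (v w : U × U)
    (h : j.val * (s + s) + i.val < s * (s + s)) : tw p (Pi.single i v) (Pi.single j w) = 0 := by
  have hj : j.val < s := by
    by_contra hj
    have := Nat.mul_le_mul_right (s + s) (not_lt.1 hj)
    omega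
  rw [tw_apply]
  refine Finset.sum_eq_zero fun b _ => ?_
  rw [Pi.single_eq_of_ne (i' := Fin.natAdd s b) (by
    intro e
    rw [← e] at hj
    simp at hj)]
  simp

end

theorem card_dual (M : Type) [AddCommGroup M] [Module F M] [Module.Finite F M] :
    Nat.card (Dual F M) = Nat.card M := by
  rw [Module.natCard_eq_pow_finrank (K := F) (V := M),
    Module.natCard_eq_pow_finrank (K := F) (V := Dual F M), Subspace.dual_finrank_eq]

theorem card_bil (m : ℕ) :
    Nat.card ((Fin m → F) →ₗ[F] (Fin m → F) →ₗ[F] F) = 3 ^ (m * m) := by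
  rw [Nat.card_congr (LinearEquiv.piRing F ((Fin m → F) →ₗ[F] F) (Fin m) F).toEquiv,
    Nat.card_fun, card_dual]
  simp [pow_mul]

theorem card_bounds {A B S : Type} [AddCommGroup A] [Module F A] [AddCommGroup B] [Module F B]
    [Fintype S] [Finite A] [Finite B] (c : Chain A B S) (δ : A →ₗ[F] B →ₗ[F] F) (x : ℕ)
    (hA : Nat.card A = 3 ^ x) (hB : Nat.card B = 3 ^ x) :
    Fintype.card S + 2 ≤ Nat.card (c.G δ) ∧
      Nat.card (c.G δ) ≤ 3 ^ (11 + 2 * Fintype.card S + (6 + Fintype.card S) * x) := by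
  have : Finite (Dual F B) := Module.finite_of_finite F
  have : Finite (Dual F A) := Module.finite_of_finite F
  have hZ : Nat.card (ZZ A B S) = 3 ^ (3 + 2 * x + Fintype.card S) := by
    simp only [Nat.card_prod, Nat.card_fun, Nat.card_zmod, hA, hB, Finite.card_option,
      Nat.card_eq_fintype_card (α := S)]
    ring
  have hV : Nat.card (VV A B S) = 3 ^ (4 + 2 * x + Fintype.card S + Fintype.card S * x) := by
    rw [Nat.card_prod, hZ, Nat.card_prod, Nat.card_fun, card_dual, hB, Nat.card_zmod,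
      Nat.card_eq_fintype_card (α := S)]
    ring
  have hQ : Nat.card c.T.dualAnnihilator ≤ 3 ^ x := by
    rw [← hA, ← card_dual A]
    exact Nat.card_le_card_of_injective _ Subtype.val_injective
  have hW : Nat.card (WW B c.T) ≤ 3 ^ (2 + 2 * x) := by
    rw [Nat.card_prod, Nat.card_prod, Nat.card_prod, hB, Nat.card_zmod]
    calc 3 ^ x * (Nat.card c.T.dualAnnihilator * (3 * 3)) ≤ 3 ^ x * (3 ^ x * (3 * 3)) := by
          gcongr
      _ = _ := by ring
  have hW' : 1 ≤ Nat.card (WW B c.T) := Nat.card_pos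
  rw [Grp.card_eq, hV, hZ]
  constructor
  · have h1 : 3 + 2 * x + Fintype.card S < 3 ^ (3 + 2 * x + Fintype.card S) :=
      Nat.lt_pow_self (by norm_num)
    have h2 : 1 ≤ 3 ^ (4 + 2 * x + Fintype.card S + Fintype.card S * x) :=
      Nat.one_le_pow _ _ (by norm_num)
    calc Fintype.card S + 2 ≤ 4 * (1 * 3 ^ (3 + 2 * x + Fintype.card S) * 1) := by omega
      _ ≤ _ := by gcongr
  · calc _ ≤ 3 ^ 2 * (3 ^ (4 + 2 * x + Fintype.card S + Fintype.card S * x) *
          3 ^ (3 + 2 * x + Fintype.card S) * 3 ^ (2 + 2 * x)) := by gcongr; norm_num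
      _ = _ := by ring

theorem finite_G {A B S : Type} [AddCommGroup A] [Module F A] [AddCommGroup B] [Module F B]
    [Fintype S] [Finite A] [Finite B] (c : Chain A B S) (δ : A →ₗ[F] B →ₗ[F] F) :
    Finite (c.G δ) := by
  have : Finite (Dual F B) := Module.finite_of_finite F
  have : Finite (Dual F A) := Module.finite_of_finite F
  infer_instance

theorem exists_group (u : ℕ) : ∃ (G : Type) (_ : Group G) (_ : Finite G),
    u + 2 ≤ Nat.card G ∧ (∃ r, Identifies 12 r G) ∧
      ∀ k < u, ∀ r, Identifies k r G → ((u : ℝ) + 1) * Real.log (Nat.card G) ≤ r := by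
  obtain ⟨q, hq⟩ : ∃ q, q = 8 * u + 7 := ⟨_, rfl⟩
  obtain ⟨m, hm⟩ : ∃ m, m = 200 * (u + 1) ^ 2 * q := ⟨_, rfl⟩
  obtain ⟨s, hs⟩ : ∃ s, s = 100 * (u + 1) * q * m := ⟨_, rfl⟩
  have hq0 : 7 ≤ q := by omega
  have hmq : 200 * q ≤ m := by
    rw [hm]
    exact Nat.mul_le_mul_right _ (Nat.le_mul_of_pos_right _ (by positivity))
  have hm0 : 0 < m := by omega
  have hs0 : 0 < s := by rw [hs]; positivity
  have : NeZero (s + s) := ⟨by omega⟩
  have : Nonempty (Fin m) := ⟨⟨0, hm0⟩⟩
  obtain ⟨n, hn⟩ := exists_expands (LinearMap.snd F (Fin m → F) (Fin m → F))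
    Prod.snd_surjective q u (4 * u + 3) (by
      simp only [Nat.card_prod, Nat.card_fun, Nat.card_zmod, Nat.card_fin, ← pow_add, ← pow_mul]
      refine Nat.pow_lt_pow_right (by norm_num) ?_
      have : (4 * u + 4) * (q + q * u + u) < 2 * m := by
        rw [hm]
        have h1 : q + q * u + u ≤ 2 * (u + 1) * q := by nlinarith
        calc (4 * u + 4) * (q + q * u + u) ≤ (4 * u + 4) * (2 * (u + 1) * q) := by gcongr
          _ = 8 * ((u + 1) ^ 2 * q) := by ring
          _ < 400 * ((u + 1) ^ 2 * q) := by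
            have : 0 < (u + 1) ^ 2 * q := by positivity
            omega
          _ = _ := by ring
      nlinarith)
  have hX : Nat.card (Fin (s + s) → (Fin m → F) × (Fin m → F)) = 3 ^ (4 * m * s) := by
    simp only [Nat.card_prod, Nat.card_fun, Nat.card_zmod, Nat.card_fin, ← pow_add, ← pow_mul]
    congr 1; ring
  have hS : Fintype.card (Bool × Fin q) = 2 * q := by simp
  have hb := fun δ => card_bounds (grid (s + s) n) δ _ hX hX
  rw [hS] at hb
  have hd : 11 + 2 * (2 * q) + (6 + 2 * q) * (4 * m * s) ≤ 20 * (q * m * s) := by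
    have h1 : 1 ≤ m * s := Nat.mul_pos hm0 hs0
    nlinarith
  have hle : Nat.card ((grid (s + s) n).G 0) ≤ 3 ^ (20 * (q * m * s)) :=
    (hb 0).2.trans (Nat.pow_le_pow_right (by norm_num) hd)
  have hfin := finite_G (grid (s + s) n)
  have : Finite ((Fin m → F) →ₗ[F] F) := Module.finite_of_finite F
  have : Finite ((Fin m → F) →ₗ[F] (Fin m → F) →ₗ[F] F) :=
    Finite.of_equiv _ (LinearEquiv.piRing F ((Fin m → F) →ₗ[F] F) (Fin m) F).toEquiv.symm
  obtain ⟨p, hp⟩ := (grid (s + s) n).exists_twist tw tw_inj (by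
      intro p a
      refine LinearMap.ext fun b => ?_
      rw [tw_apply, tw_apply]
      refine Finset.sum_congr rfl fun j _ => ?_
      show p j (Pi.single (M := fun _ : Fin (s + s) => (Fin m → F) × (Fin m → F)) 0
        ((a 0).1, 0) 0).1 _ = _
      rw [Pi.single_eq_same]) (by
      rw [Nat.card_fun, card_bil, Nat.card_fin, ← pow_mul]
      refine lt_of_le_of_lt (Nat.pow_le_pow_left hle 7) ?_
      rw [← pow_mul]
      refine Nat.pow_lt_pow_right (by norm_num) ?_
      have h1 : 1 ≤ m * s := Nat.mul_pos hm0 hs0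
      nlinarith)
  refine ⟨(grid (s + s) n).G 0, inferInstance, inferInstance, le_trans (by omega) (hb 0).1,
    identifies_of_rigid (by simp) ((grid (s + s) n).rigid (δ := 0) (fun _ => rfl)), ?_⟩
  intro k hk r hr
  have hw := hr ((grid (s + s) n).G (tw p)) (by rw [Grp.card_eq, Grp.card_eq]) hp
  have hnw := grid_not_wins (s + s) n hn (by omega) hk (tw p) (tw_low p)
  have hlt : s * (s + s) ≤ r := by
    by_contra h
    exact hnw (wins_mono (by omega) _ hw)
  have hpos : (0 : ℝ) < Nat.card ((grid (s + s) n).G 0) := by exact_mod_cast Nat.card_pos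
  have hlog : Real.log (Nat.card ((grid (s + s) n).G 0)) ≤ (20 * (q * m * s) : ℕ) * 2 := by
    calc Real.log (Nat.card ((grid (s + s) n).G 0))
        ≤ Real.log ((3 : ℝ) ^ (20 * (q * m * s))) :=
          Real.log_le_log hpos (by exact_mod_cast hle)
      _ = (20 * (q * m * s) : ℕ) * Real.log 3 := by rw [Real.log_pow]
      _ ≤ _ := by
          gcongr
          have := Real.log_le_sub_one_of_pos (show (0 : ℝ) < 3 by norm_num)
          linarith
  have hfn : (u + 1) * (20 * (q * m * s) * 2) ≤ r := by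
    refine le_trans ?_ hlt
    have : s * (s + s) = 200 * ((u + 1) * (q * m * s)) := by
      nth_rewrite 2 3 [hs]
      ring
    rw [this]
    nlinarith
  calc ((u : ℝ) + 1) * Real.log (Nat.card ((grid (s + s) n).G 0))
      ≤ ((u : ℝ) + 1) * ((20 * (q * m * s) : ℕ) * 2) := by gcongr
    _ = ((u + 1) * (20 * (q * m * s) * 2) : ℕ) := by push_cast; ring
    _ ≤ r := by exact_mod_cast hfn

end Pool.Agent.MP_45960e_lc
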