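import Pool.Agent.MP_45960e_lc.Grp

/-!
The bilinear map of a chain, and rigidity of its group over seven constants.
-/

namespace Pool.Agent.MP_45960e_lc

open Module Grp

theorem exists_cyc (M : Type) [AddCommGroup M] [Module F M] [Module.Finite F M] :
    ∃ C : (F × F × M) →ₗ[F] (F × F × M), C (1, 0, 0) = (0, 1, 0) ∧
      ∀ p : F × F × M → Prop, p (1, 0, 0) → (∀ a b, p a → p b → p (a + b)) →
        (∀ a, p a → p (C a)) → ∀ z, p z := by
  let b := Module.finBasis F M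
  let bb : ℕ → M := fun i => if h : i < finrank F M then b ⟨i, h⟩ else 0
  let sh : M →ₗ[F] M := b.constr F (fun i => bb (i.val + 1))
  let C : (F × F × M) →ₗ[F] (F × F × M) :=
    LinearMap.prod 0 (LinearMap.prod (LinearMap.fst F F (F × M))
      (((LinearMap.fst F F M).smulRight (bb 0) + sh ∘ₗ LinearMap.snd F F M) ∘ₗ
        LinearMap.snd F F (F × M)))
  have hC : ∀ x y z, C (x, y, z) = (0, x, y • bb 0 + sh z) := fun x y z => rfl
  refine ⟨C, by simp [hC], ?_⟩
  intro p h0 hadd hCp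
  have hz : p 0 := by
    rw [← three_eq_zero ((1, 0, 0) : F × F × M)]
    exact hadd _ _ (hadd _ _ h0 h0) h0
  have hsm : ∀ (c : F) x, p x → p (c • x) := by
    intro c x hx
    have hc : ∀ c : F, c = 0 ∨ c = 1 ∨ c = 2 := by decide
    rcases hc c with rfl | rfl | rfl
    · simpa using hz
    · simpa using hx
    · rw [two_smul]; exact hadd _ _ hx hx
  have h1 : p (0, 1, 0) := by simpa [hC] using hCp _ h0
  have h2 : ∀ i, p (0, 0, bb i) := by
    intro i
    induction i with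
    | zero => simpa [hC] using hCp _ h1
    | succ i ih =>
      by_cases hi : i < finrank F M
      · have := hCp _ ih
        rw [hC] at this
        have e : sh (bb i) = bb (i + 1) := by
          have : bb i = b ⟨i, hi⟩ := by simp [bb, hi]
          rw [this]; simp [sh]
        simpa [e] using this
      · have : bb (i + 1) = 0 := by
          simp only [bb]; rw [dif_neg (by omega)]
        rw [this]; exact hz
  have h3 : ∀ z, p (0, 0, z) := by
    intro z
    have hz' : z ∈ Submodule.span F (Set.range b) := by rw [b.span_eq]; trivial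
    induction hz' using Submodule.span_induction with
    | mem x hx =>
      obtain ⟨i, rfl⟩ := hx
      have : b i = bb i.val := by simp [bb]
      rw [this]; exact h2 _
    | zero => exact hz
    | add x y _ _ hx hy => simpa using hadd _ _ hx hy
    | smul c x _ hx => simpa using hsm c _ hx
  rintro ⟨x, y, z⟩
  simpa using hadd _ _ (hadd _ _ (hsm x _ h0) (hsm y _ h1)) (h3 z)

variable {A B S : Type} [AddCommGroup A] [Module F A] [AddCommGroup B] [Module F B] [Fintype S]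

variable (A B S) in
abbrev ZZ := F × F × (A × B × (Option S → F))

variable (A B S) in
abbrev VV := ZZ A B S × (S → Dual F B) × F

abbrev WW (B : Type) (T : Submodule F A) := B × T.dualAnnihilator × F × F

variable (A B S) in
/-- The data of a chain. -/
structure Chain where
  N : S → A →ₗ[F] A
  M : S → B →ₗ[F] B
  T : Submodule F A
  C : ZZ A B S →ₗ[F] ZZ A B S
  hC : C (1, 0, 0) = (0, 1, 0)
  gen : ∀ p : ZZ A B S → Prop, p (1, 0, 0) → (∀ a b, p a → p b → p (a + b)) →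
    (∀ a, p a → p (C a)) → ∀ z, p z
  Hom : ℕ → A → B → Prop
  step : ∀ t a b, Hom t a b → ∀ σ, N σ a = 0 ∨ M σ b = 0 ∨ ∃ t' < t, Hom t' (N σ a) (M σ b)
  pT : A → A
  pT_mem : ∀ a, pT a ∈ T
  pT_hom : ∀ t a b, Hom t a b → pT a = 0 ∨ Hom t (pT a) b
  SA : Set A
  SB : Set B
  spanA : Submodule.span F SA = ⊤
  spanB : Submodule.span F SB = ⊤
  ex : ∀ a ∈ SA, ∀ b ∈ SB, ∃ t, Hom t a b
  b0 : B
  hb0 : b0 ≠ 0

namespace Chain
variable (c : Chain A B S)

def col (δ : A →ₗ[F] B →ₗ[F] F) (v : VV A B S) (w : WW B c.T) : Option S → F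
  | none => ∑ σ, v.2.1 σ (c.M σ w.1) - w.2.1.1 v.1.2.2.1 + δ v.1.2.2.1 w.1
  | some σ => v.2.1 σ w.1 - w.2.1.1 (c.N σ v.1.2.2.1)

def betaF (δ : A →ₗ[F] B →ₗ[F] F) (v : VV A B S) (w : WW B c.T) : ZZ A B S :=
  w.2.2.1 • v.1 + w.2.2.2 • c.C v.1 + (0, 0, (0, v.2.2 • w.1, c.col δ v w))

theorem col_add_left (δ : A →ₗ[F] B →ₗ[F] F) (v v' : VV A B S) (w : WW B c.T) :
    c.col δ (v + v') w = c.col δ v w + c.col δ v' w := by
  funext o
  cases o <;> simp [col, Finset.sum_add_distrib] <;> ring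

theorem col_smul_left (δ : A →ₗ[F] B →ₗ[F] F) (x : F) (v : VV A B S) (w : WW B c.T) :
    c.col δ (x • v) w = x • c.col δ v w := by
  funext o
  cases o <;> simp [col, ← Finset.mul_sum] <;> ring

theorem col_add_right (δ : A →ₗ[F] B →ₗ[F] F) (v : VV A B S) (w w' : WW B c.T) :
    c.col δ v (w + w') = c.col δ v w + c.col δ v w' := by
  funext o
  cases o <;> simp [col, Finset.sum_add_distrib] <;> ring

theorem col_smul_right (δ : A →ₗ[F] B →ₗ[F] F) (x : F) (v : VV A B S) (w : WW B c.T) :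
    c.col δ v (x • w) = x • c.col δ v w := by
  funext o
  cases o <;> simp [col, ← Finset.mul_sum] <;> ring

def beta (δ : A →ₗ[F] B →ₗ[F] F) : VV A B S →ₗ[F] WW B c.T →ₗ[F] ZZ A B S :=
  LinearMap.mk₂ F (c.betaF δ)
    (by
      intro v v' w
      simp only [betaF, col_add_left, Prod.fst_add, Prod.snd_add, map_add, smul_add, add_smul]
      ext <;> simp <;> abel)
    (by
      intro x v w
      simp only [betaF, col_smul_left, Prod.smul_fst, Prod.smul_snd, map_smul, smul_add]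
      ext <;> simp [smul_smul, mul_comm, mul_left_comm])
    (by
      intro v w w'
      simp only [betaF, col_add_right, Prod.fst_add, Prod.snd_add, smul_add, add_smul]
      ext <;> simp <;> abel)
    (by
      intro x v w
      simp only [betaF, col_smul_right, Prod.smul_fst, Prod.smul_snd, smul_add]
      ext <;> simp [smul_smul, mul_comm, mul_left_comm, mul_assoc])

theorem beta_apply (δ : A →ₗ[F] B →ₗ[F] F) (v : VV A B S) (w : WW B c.T) :
    c.beta δ v w = w.2.2.1 • v.1 + w.2.2.2 • c.C v.1 + (0, 0, (0, v.2.2 • w.1, c.col δ v w)) :=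
  rfl

theorem col_zero (δ : A →ₗ[F] B →ₗ[F] F) (v : VV A B S) (y y' : F) :
    c.col δ v (0, 0, y, y') = 0 := by
  funext o
  cases o <;> simp [col]

theorem col_zero' (δ : A →ₗ[F] B →ₗ[F] F) (s t x : F) (w : WW B c.T) :
    c.col δ ((s, t, 0), 0, x) w = 0 := by
  funext o
  cases o <;> simp [col]

theorem beta_e (δ : A →ₗ[F] B →ₗ[F] F) (v : VV A B S) : c.beta δ v (0, 0, 1, 0) = v.1 := by
  simp [beta_apply, col_zero]

theorem beta_e' (δ : A →ₗ[F] B →ₗ[F] F) (v : VV A B S) :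
    c.beta δ v (0, 0, 0, 1) = c.C v.1 := by
  simp [beta_apply, col_zero]

theorem lin_rigid {δ δ' : A →ₗ[F] B →ₗ[F] F} (hδ : ∀ a, δ (c.pT a) = δ a)
    (hδ' : ∀ a, δ' (c.pT a) = δ' a) (RV : VV A B S → VV A B S → Prop)
    (RW : WW B c.T → WW B c.T → Prop)
    (f0 : ∀ w, ∃ w', RW w w')
    (f1 : ∀ w w', RW w w' → ∀ v, ∃ v', RV v v' ∧ c.beta δ v w = c.beta δ' v' w')
    (f2 : ∀ v v', RV v v' → ∀ w, ∃ w', RW w w' ∧ c.beta δ v w = c.beta δ' v' w')
    (cV1 : ∀ v v', RV v v' → c.beta δ v (0, 0, 1, 0) = c.beta δ' v' (0, 0, 1, 0))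
    (cV2 : ∀ v v', RV v v' → c.beta δ v (c.b0, 0, 0, 0) = c.beta δ' v' (c.b0, 0, 0, 0))
    (cW1 : ∀ w w', RW w w' → c.beta δ (0, 0, 1) w = c.beta δ' (0, 0, 1) w')
    (cW2 : ∀ w w', RW w w' → c.beta δ ((1, 0, 0), 0, 0) w = c.beta δ' ((1, 0, 0), 0, 0) w') :
    δ = δ' ∧ (∀ v v', RV v v' → v' = v) ∧ ∀ w w', RW w w' → w' = w := by
  have dV : ∀ v v', RV v v' → v'.1 = v.1 ∧ v'.2.2 = v.2.2 := by
    intro v v' h
    refine ⟨by simpa [beta_e] using (cV1 v v' h).symm, ?_⟩
    have := congrArg (fun z : ZZ A B S => z.2.2.2.1) (cV2 v v' h)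
    simp only [beta_apply, zero_smul, zero_add] at this
    exact (smul_left_injective F c.hb0 this).symm
  have dW : ∀ w w', RW w w' → w'.1 = w.1 ∧ w'.2.2 = w.2.2 := by
    intro w w' h
    have h1 := congrArg (fun z : ZZ A B S => z.2.2.2.1) (cW1 w w' h)
    have h2 := congrArg (fun z : ZZ A B S => z.1) (cW2 w w' h)
    have h3 := congrArg (fun z : ZZ A B S => z.2.1) (cW2 w w' h)
    simp [beta_apply, c.hC] at h1 h2 h3
    exact ⟨h1.symm, Prod.ext h2.symm h3.symm⟩
  have rel : ∀ v v' w w', RV v v' → RW w w' → c.beta δ v w = c.beta δ' v' w' →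
      (∀ σ, (v'.2.1 - v.2.1) σ w.1 = (w'.2.1.1 - w.2.1.1) (c.N σ v.1.2.2.1)) ∧
      (w'.2.1.1 - w.2.1.1) v.1.2.2.1 + (δ - δ') v.1.2.2.1 w.1 =
        ∑ σ, (v'.2.1 - v.2.1) σ (c.M σ w.1) := by
    intro v v' w w' hv hw h
    obtain ⟨e1, e2⟩ := dV v v' hv
    obtain ⟨e3, e4⟩ := dW w w' hw
    rw [beta_apply, beta_apply, e1, e2, e3, e4] at h
    have h' : c.col δ v w = c.col δ' v' w' :=
      congrArg (fun z : ZZ A B S => z.2.2.2.2) (add_left_cancel h)
    constructor
    · intro σ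
      have := congrFun h' (some σ)
      simp only [col, e1, e3] at this
      simp only [Pi.sub_apply, LinearMap.sub_apply]
      linear_combination -this
    · have := congrFun h' none
      simp only [col, e1, e3] at this
      simp only [Pi.sub_apply, LinearMap.sub_apply, Finset.sum_sub_distrib]
      linear_combination this
  have main : ∀ t a b, c.Hom t a b → (δ - δ') a b = 0 ∧
      ∀ w w', RW w w' → w.1 = b → (w'.2.1.1 - w.2.1.1) a = 0 := by
    intro t
    induction t using Nat.strong_induction_on with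
    | _ t ih =>
    have k1 : ∀ a b, c.Hom t a b → ∀ w w', RW w w' → w.1 = b →
        (w'.2.1.1 - w.2.1.1) a + (δ - δ') a b = 0 := by
      intro a b hab w w' hw hb
      obtain ⟨v', hv, h⟩ := f1 w w' hw ((0, 0, (a, 0, 0)), 0, 0)
      have h2 := (rel _ _ _ _ hv hw h).2
      rw [hb] at h2
      refine h2.trans (Finset.sum_eq_zero fun σ _ => ?_)
      obtain ⟨u', hu, h'⟩ := f2 _ _ hv (c.M σ b, 0, 0, 0)
      have h3 := (rel _ _ _ _ hv hu h').1 σ
      rcases c.step t a b hab σ with h0 | h0 | ⟨t', ht', h0⟩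
      · refine h3.trans ?_
        simp [h0]
      · rw [h0]; simp
      · exact h3.trans ((ih t' ht' _ _ h0).2 _ _ hu rfl)
    intro a b hab
    have k2 : (δ - δ') a b = 0 := by
      have e : (δ - δ') a = (δ - δ') (c.pT a) := by simp [hδ, hδ']
      rw [e]
      rcases c.pT_hom t a b hab with h0 | h0
      · rw [h0]; simp
      · obtain ⟨w', hw⟩ := f0 (b, 0, 0, 0)
        have := k1 _ _ h0 _ _ hw rfl
        have h1 := (Submodule.mem_dualAnnihilator _).1 w'.2.1.2 _ (c.pT_mem a)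
        simpa [h1] using this
    refine ⟨k2, fun w w' hw hb => ?_⟩
    have := k1 a b hab w w' hw hb
    rwa [k2, add_zero] at this
  have hΔ : δ - δ' = 0 := by
    refine LinearMap.ext_on c.spanA fun a ha => LinearMap.ext_on c.spanB fun b hb => ?_
    obtain ⟨t, ht⟩ := c.ex a ha b hb
    exact (main t a b ht).1
  have hP : ∀ v v', RV v v' → v'.2.1 - v.2.1 = 0 := by
    intro v v' hv
    funext σ
    refine LinearMap.ext_on c.spanB fun b hb => ?_
    obtain ⟨u', hu, h'⟩ := f2 _ _ hv (b, 0, 0, 0)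
    have h3 := (rel _ _ _ _ hv hu h').1 σ
    have h4 : u'.2.1.1 - ((b, 0, 0, 0) : WW B c.T).2.1.1 = 0 := by
      refine LinearMap.ext_on c.spanA fun a ha => ?_
      obtain ⟨t, ht⟩ := c.ex a ha b hb
      exact (main t a b ht).2 _ _ hu rfl
    rw [h4] at h3
    exact h3
  refine ⟨sub_eq_zero.1 hΔ, fun v v' hv => ?_, fun w w' hw => ?_⟩
  · exact Prod.ext (dV v v' hv).1 (Prod.ext (sub_eq_zero.1 (hP v v' hv)) (dV v v' hv).2)
  · refine Prod.ext (dW w w' hw).1 (Prod.ext (Subtype.ext (sub_eq_zero.1 ?_)) (dW w w' hw).2)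
    ext a
    obtain ⟨v', hv, h⟩ := f1 w w' hw ((0, 0, (a, 0, 0)), 0, 0)
    have h2 := (rel _ _ _ _ hv hw h).2
    rw [hΔ, hP _ _ hv] at h2
    simpa using h2

/-- The group of the chain with twist `δ`. -/
abbrev G (δ : A →ₗ[F] B →ₗ[F] F) : Type :=
  Grp (V := VV A B S) (W := WW B c.T) (Z := ZZ A B S) (c.beta δ)

/-- The seven constants. -/
def cst (δ : A →ₗ[F] B →ₗ[F] F) : Fin 7 → c.G δ :=
  ![tor _ (-1) 1, tor _ 1 (-1), iW _ (0, 0, 1, 0), iW _ (0, 0, 0, 1), iW _ (c.b0, 0, 0, 0),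
    iV _ (0, 0, 1), iV _ ((1, 0, 0), 0, 0)]

theorem grp_rigid {δ δ' : A →ₗ[F] B →ₗ[F] F} (hδ : ∀ a, δ (c.pT a) = δ a)
    (hδ' : ∀ a, δ' (c.pT a) = δ' a) {k : ℕ} (hk : 12 ≤ k)
    (Bf : BF (c.G δ) (c.G δ') k) {cs : List _}
    (hcs : cs = List.ofFn fun i => (c.cst δ i, c.cst δ' i)) (hE : Bf.E cs) :
    δ = δ' ∧ (∀ v v', Bf.E ((iV _ v, iV _ v') :: cs) → v' = v) ∧
      (∀ w w', Bf.E ((iW _ w, iW _ w') :: cs) → w' = w) ∧
      ∀ z z', Bf.E ((iZ _ z, iZ _ z') :: cs) → z' = z := by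
  have hm : ∀ i, (c.cst δ i, c.cst δ' i) ∈ cs := fun i => hcs ▸ List.mem_ofFn.2 ⟨i, rfl⟩
  have hlen : cs.length = 7 := by rw [hcs]; simp
  have m0 : (tor _ (-1) 1, tor _ (-1) 1) ∈ cs := hm 0
  have m1 : (tor _ 1 (-1), tor _ 1 (-1)) ∈ cs := hm 1
  have m2 : (iW _ (0, 0, 1, 0), iW _ (0, 0, 1, 0)) ∈ cs := hm 2
  have m3 : (iW _ (0, 0, 0, 1), iW _ (0, 0, 0, 1)) ∈ cs := hm 3
  have m4 : (iW _ (c.b0, 0, 0, 0), iW _ (c.b0, 0, 0, 0)) ∈ cs := hm 4
  have m5 : (iV _ (0, 0, 1), iV _ (0, 0, 1)) ∈ cs := hm 5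
  have m6 : (iV _ ((1, 0, 0), 0, 0), iV _ ((1, 0, 0), 0, 0)) ∈ cs := hm 6
  have hZ := Bf.fixZ (by omega) m0 m1 Prod.fst c.C m2 m3 m6 Prod.fst_surjective
    (c.beta_e δ) (c.beta_e δ') (c.beta_e' δ) (c.beta_e' δ') c.gen
  have hβ : ∀ l, Bf.E l → l.length ≤ 10 → (∀ x ∈ cs, x ∈ l) → ∀ v v' w w',
      (iV _ v, iV _ v') ∈ l → (iW _ w, iW _ w') ∈ l → c.beta δ v w = c.beta δ' v' w' := by
    intro l hl hl' hs v v' w w' h1 h2
    exact (hZ _ _ (Bf.sub (Bf.beta hl (by omega) h1 h2) (by simp +contextual [hs]))).symm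
  obtain ⟨h1, h2, h3⟩ := c.lin_rigid hδ hδ' (fun v v' => Bf.E ((iV _ v, iV _ v') :: cs))
    (fun w w' => Bf.E ((iW _ w, iW _ w') :: cs)) (fun w => Bf.forthW hE (by omega) m0 w)
    (by
      intro w w' hw v
      obtain ⟨v', h⟩ := Bf.forthV hw (by simp; omega) (by simp [m1]) v
      exact ⟨v', Bf.sub h (by simp +contextual),
        hβ _ h (by simp; omega) (by simp +contextual) _ _ _ _ (by simp) (by simp)⟩)
    (by
      intro v v' hv w
      obtain ⟨w', h⟩ := Bf.forthW hv (by simp; omega) (by simp [m0]) w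
      exact ⟨w', Bf.sub h (by simp +contextual),
        hβ _ h (by simp; omega) (by simp +contextual) _ _ _ _ (by simp) (by simp)⟩)
    (fun v v' h => hβ _ h (by simp; omega) (by simp +contextual) _ _ _ _ (by simp) (by simp [m2]))
    (fun v v' h => hβ _ h (by simp; omega) (by simp +contextual) _ _ _ _ (by simp) (by simp [m4]))
    (fun v v' h => hβ _ h (by simp; omega) (by simp +contextual) _ _ _ _ (by simp [m5]) (by simp))
    (fun v v' h => hβ _ h (by simp; omega) (by simp +contextual) _ _ _ _ (by simp [m6]) (by simp))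
  exact ⟨h1, h2, h3, hZ⟩

theorem rigid {δ : A →ₗ[F] B →ₗ[F] F} (hδ : ∀ a, δ (c.pT a) = δ a) :
    Rigid (c.G δ) 12 (List.ofFn (c.cst δ)) := by
  intro Bf g g' h
  have hcs : (List.ofFn (c.cst δ)).map (fun x => (x, x)) =
      List.ofFn fun i => (c.cst δ i, c.cst δ i) := by
    rw [List.map_ofFn]; rfl
  obtain ⟨-, h1, h2, h3⟩ := c.grp_rigid hδ hδ le_rfl Bf hcs (Bf.sub h (by simp +contextual))
  have hm : ∀ i, (c.cst δ i, c.cst δ i) ∈ (List.ofFn (c.cst δ)).map (fun x => (x, x)) :=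
    fun i => hcs ▸ List.mem_ofFn.2 ⟨i, rfl⟩
  exact Bf.fixAll (by simp) (hm 0) (hm 1) h1 h2 h3 g g' h

theorem exists_twist [Finite A] [Finite B] {P : Type} [Finite P] (tw : P → A →ₗ[F] B →ₗ[F] F)
    (hinj : Function.Injective tw) (htw : ∀ p a, tw p (c.pT a) = tw p a)
    (hcard : Nat.card (c.G 0) ^ 7 < Nat.card P) :
    ∃ p, IsEmpty (c.G 0 ≃* c.G (tw p)) := by
  by_contra hne
  have hex : ∀ p, Nonempty (c.G 0 ≃* c.G (tw p)) := by
    intro p
    by_contra h
    exact hne ⟨p, not_nonempty_iff.1 h⟩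
  have : Finite (Dual F B) := Module.finite_of_finite F
  have : Finite (Dual F A) := Module.finite_of_finite F
  let φ := fun p => (hex p).some
  have hinj' : Function.Injective
      (fun p => fun i : Fin 7 => (φ p).symm (c.cst (tw p) i)) := by
    intro p p' h
    apply hinj
    refine (c.grp_rigid (htw p) (htw p') le_rfl (BF.ofIso ((φ p).symm.trans (φ p')) 12) rfl ?_).1
    intro x hx
    obtain ⟨i, rfl⟩ := List.mem_ofFn.1 hx
    have : (φ p).symm (c.cst (tw p) i) = (φ p').symm (c.cst (tw p') i) := congrFun h i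
    simp only [MulEquiv.trans_apply]
    rw [this]; simp
  have := Nat.card_le_card_of_injective _ hinj'
  rw [Nat.card_fun] at this
  simp at this
  omega

end Chain

end Pool.Agent.MP_45960e_lc
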